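import Pool.Agent.Lib.H74Q.E0
import Pool.Agent.Lib.PenroseSph.SphAvg

set_option autoImplicit false

/-!
H17S module K (integral operators on the sphere): definitions. See H17S/PROOF.md, section 5.
For continuous `g1, g2` on the sphere `TE ε g1 g2` is the tangential field `grad φ1 + n x grad φ2`, `φj (n) = (1/4π) ∫ log (ε + |n - m|²/2) gj (m) dm`,
`PE ε g` is the mean of `g` with the probability kernel `(ε (2 + ε)/4π)/(ε + |n - m|²/2)²`, and `div TE = PE g1 - av g1`, `curl TE = PE g2 - av g2`.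
On the sphere `|n - m|²/2 = 1 - n . m`, so `kd ε n m = ε + 1 - n . m`.
-/

open MeasureTheory Filter Topology Set
open scoped ContDiff

namespace NullS

open NullPen (E3 S2 sm)
open NullU (rl crs vnrm)
open NullQ (rt HR)

/-- `ε + |y - m|²/2`. -/
noncomputable def kd (ε : ℝ) (y m : E3) : ℝ := ε + (∑ i, (y i - m i) ^ 2) / 2

/-- The mean value. -/
noncomputable def av (g : S2 → ℝ) : ℝ := (∫ m, g m ∂sm) / (4 * Real.pi)

/-- `(y, m) ↦` the vector kernels of `TE`. -/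
noncomputable def ka (ε : ℝ) (y m : E3) (k : Fin 3) : ℝ := (m k - (∑ i, y i * m i) * y k) / kd ε y m

noncomputable def kb (ε : ℝ) (y m : E3) (k : Fin 3) : ℝ := crs (fun i => y i) (fun i => m i) k / kd ε y m

/-- The regularised Hodge operator: a tangential field with divergence `PE g1 - av g1` and curl `PE g2 - av g2`. -/
noncomputable def TE (ε : ℝ) (g1 g2 : S2 → ℝ) (y : E3) (k : Fin 3) : ℝ :=
  -(1 / (4 * Real.pi)) * ∫ m : S2, (g1 m * ka ε y m k + g2 m * kb ε y m k) ∂sm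

/-- The mean with the kernel `(ε (2 + ε)/4π)/(ε + |n - m|²/2)²`. -/
noncomputable def PE (ε : ℝ) (g : S2 → ℝ) (y : E3) : ℝ :=
  ε * (2 + ε) / (4 * Real.pi) * ∫ m : S2, g m * (1 / kd ε y m ^ 2) ∂sm

/-- Potential: `(1/4π) ∫ log (ε + |y - m|²/2) g (m) dm`. -/
noncomputable def LE (ε : ℝ) (g : S2 → ℝ) (y : E3) : ℝ :=
  1 / (4 * Real.pi) * ∫ m : S2, g m * Real.log (kd ε y m) ∂sm

theorem kd_ge (ε : ℝ) (y m : E3) : ε ≤ kd ε y m := by
  unfold kd
  have h : 0 ≤ ∑ i, (y i - m i) ^ 2 := Finset.sum_nonneg fun i _ => sq_nonneg _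
  linarith

theorem kd_pos {ε : ℝ} (hε : 0 < ε) (y m : E3) : 0 < kd ε y m := hε.trans_le (kd_ge ε y m)

theorem sq_S2 (n : S2) : (n : E3) 0 ^ 2 + (n : E3) 1 ^ 2 + (n : E3) 2 ^ 2 = 1 := NShell.S2_sq n (by simp)

theorem kd_S2 (ε : ℝ) (n m : S2) : kd ε n m = ε + 1 - ∑ i, (n : E3) i * (m : E3) i := by
  unfold kd
  have h1 := sq_S2 n
  have h2 := sq_S2 m
  simp only [Fin.sum_univ_three]
  nlinarith

theorem kd_norm (ε : ℝ) (y m : E3) : kd ε y m = ε + ‖y - m‖ ^ 2 / 2 := by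
  unfold kd
  rw [EuclideanSpace.norm_sq_eq]
  simp [Real.norm_eq_abs, sq_abs]

theorem kd_smooth (ε : ℝ) : ContDiff ℝ ∞ (fun p : E3 × E3 => kd ε p.1 p.2) := by
  unfold kd
  have h : ∀ k : Fin 3, ContDiff ℝ ∞ (fun y : E3 => y k) := fun k => (EuclideanSpace.proj k : E3 →L[ℝ] ℝ).contDiff
  refine contDiff_const.add (ContDiff.div_const (ContDiff.sum fun i _ => ?_) 2)
  exact (((h i).comp contDiff_fst).sub ((h i).comp contDiff_snd)).pow 2

theorem int_S2 {f : S2 → ℝ} (hf : Continuous f) : Integrable f sm := NShell.stdFr.integrable f hf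

theorem sm_real : sm.real univ = 4 * Real.pi := Pool.Agent.Lib.PenroseSph.sm_univ

theorem av_const (c : ℝ) : av (fun _ => c) = c := by
  unfold av
  rw [integral_const, sm_real]
  field_simp [Real.pi_ne_zero]
  simp

/-- The component functions are smooth. -/
theorem co_smooth (k : Fin 3) : ContDiff ℝ ∞ (fun y : E3 => y k) := (EuclideanSpace.proj k : E3 →L[ℝ] ℝ).contDiff

theorem vnrm_nonneg (v : Fin 3 → ℝ) : 0 ≤ vnrm v := Real.sqrt_nonneg _

theorem vnrm_sq (v : Fin 3 → ℝ) : vnrm v ^ 2 = ∑ i, v i ^ 2 :=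
  Real.sq_sqrt (Finset.sum_nonneg fun i _ => sq_nonneg (v i))

theorem vnrm_cs (v w : Fin 3 → ℝ) : ∑ i, v i * w i ≤ vnrm v * vnrm w := by
  have h := Finset.sum_mul_sq_le_sq_mul_sq Finset.univ v w
  have h1 : (∑ i, v i * w i) ^ 2 ≤ (vnrm v * vnrm w) ^ 2 := by
    rw [mul_pow, vnrm_sq, vnrm_sq]
    exact h
  exact le_of_abs_le (abs_le_of_sq_le_sq h1 (mul_nonneg (vnrm_nonneg v) (vnrm_nonneg w)))

/-- The norm of an integral. -/
theorem vnrm_int {F : S2 → Fin 3 → ℝ} (hF : ∀ k, Continuous (fun m => F m k)) {G : S2 → ℝ} (hG : Continuous G)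
    (h : ∀ m, vnrm (F m) ≤ G m) : vnrm (fun k => ∫ m, F m k ∂sm) ≤ ∫ m, G m ∂sm := by
  set w : Fin 3 → ℝ := fun k => ∫ m, F m k ∂sm with hw
  have h1 : vnrm w ^ 2 = ∫ m, (∑ k, w k * F m k) ∂sm := by
    rw [vnrm_sq, integral_finsetSum _ fun k _ => (int_S2 (hF k)).const_mul (w k)]
    refine Finset.sum_congr rfl fun k _ => ?_
    rw [integral_const_mul, sq]
  have h2 : ∫ m, (∑ k, w k * F m k) ∂sm ≤ ∫ m, vnrm w * G m ∂sm := by
    refine integral_mono (int_S2 (continuous_finsetSum _ fun k _ => continuous_const.mul (hF k)))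
      ((int_S2 hG).const_mul _) fun m => ?_
    exact (vnrm_cs w (F m)).trans (mul_le_mul_of_nonneg_left (h m) (vnrm_nonneg w))
  rw [integral_const_mul] at h2
  have h3 : 0 ≤ ∫ m, G m ∂sm := integral_nonneg fun m => (vnrm_nonneg _).trans (h m)
  by_contra hc
  push Not at hc
  have h4 : 0 < vnrm w := h3.trans_lt hc
  nlinarith

end NullS
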