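import Pool.Agent.Lib.H17S.K.K0

set_option autoImplicit false

/-!
Chunk K1 (M). Integrals over the sphere with a smooth parameter are smooth; differentiation under the integral.
Proof. Exactly as `BF3_fd` and `BF3_param` in `Lib/H17U/BF3.lean` (read them and copy: there the parameter integral is `∫ t in 0..1`, here it is `∫ m : S2, g m * ... ∂sm`), with
`hasFDerivAt_integral_of_dominated_of_fderiv_le` on `closedBall y 1`; the derivative `(y, m) ↦ (fderiv ℝ F (y, m)).comp (inl)` is continuous, so bounded by `C` on the compact set `closedBall y 1 ×ˢ (sphere)`;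
the bound is the constant `C' = C * sup |g|` (`sm` is a finite measure, continuous functions on `S2` are integrable: `int_S2`, which is for real functions; for functions with values in a normed space:
`Continuous.integrable_of_hasCompactSupport h (HasCompactSupport.of_compactSpace _)`).
Induction on `n` with `contDiff_succ_iff_fderiv_apply` for real `F : E3 × E3 → ℝ`: the derivative in the direction `v` is `∫ g m * fderiv ℝ F (y, m) (v, 0)`, which is again of the same form.
`int_rl`: the same formula for the derivative, with `v = rotv j y` (`rl j G y = fderiv ℝ G y (rotv j y)` by definition).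
-/

open MeasureTheory Filter Topology Set
open scoped ContDiff

namespace NullS

open NullPen (E3 S2 sm)
open NullU (rl crs vnrm)
open NullQ (rt HR)

theorem k1_fin : IsFiniteMeasure sm := by
  show IsFiniteMeasure (volume : Measure E3).toSphere
  infer_instance

/-- The derivative of the integrand. -/
noncomputable def k1_D (F : E3 × E3 → ℝ) (g : S2 → ℝ) (y : E3) (m : S2) : E3 →L[ℝ] ℝ :=
  g m • (fderiv ℝ F (y, m)).comp (ContinuousLinearMap.inl ℝ E3 E3)

theorem k1_D_cont {F : E3 × E3 → ℝ} (hF : ContDiff ℝ 1 F) {g : S2 → ℝ} (hg : Continuous g) :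
    Continuous (fun p : E3 × S2 => k1_D F g p.1 p.2) := by
  unfold k1_D
  have h1 : Continuous (fderiv ℝ F) := hF.continuous_fderiv (by simp)
  have h2 : Continuous (fun p : E3 × S2 => fderiv ℝ F (p.1, (p.2 : E3))) := h1.comp (by fun_prop)
  exact (hg.comp continuous_snd).smul (h2.clm_comp continuous_const)

theorem k1_int {G : Type} [NormedAddCommGroup G] {f : S2 → G} (hf : Continuous f) : Integrable f sm := by
  have := k1_fin
  exact Continuous.integrable_of_hasCompactSupport hf (HasCompactSupport.of_compactSpace _)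

theorem k1_fd {F : E3 × E3 → ℝ} (hF : ContDiff ℝ 1 F) {g : S2 → ℝ} (hg : Continuous g) (y₀ : E3) :
    HasFDerivAt (fun y : E3 => ∫ m : S2, g m * F (y, m) ∂sm) (∫ m : S2, k1_D F g y₀ m ∂sm) y₀ := by
  have := k1_fin
  have hD := k1_D_cont hF hg
  have hc : IsCompact (Metric.closedBall y₀ 1 ×ˢ (Set.univ : Set S2)) :=
    (isCompact_closedBall y₀ 1).prod isCompact_univ
  obtain ⟨C, hC⟩ := hc.exists_bound_of_continuousOn hD.continuousOn
  have hcF : ∀ y : E3, Continuous (fun m : S2 => g m * F (y, m)) := by
    intro y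
    have h1 : Continuous (fun m : S2 => F (y, (m : E3))) := hF.continuous.comp (by fun_prop)
    exact hg.mul h1
  refine hasFDerivAt_integral_of_dominated_of_fderiv_le (𝕜 := ℝ)
    (s := Metric.closedBall y₀ 1) (bound := fun _ => C)
    (F := fun y m => g m * F (y, (m : E3))) (F' := fun y m => k1_D F g y m) ?_ ?_ ?_ ?_ ?_ ?_ ?_
  · exact Metric.closedBall_mem_nhds y₀ one_pos
  · exact Eventually.of_forall fun y => (k1_int (hcF y)).aestronglyMeasurable
  · exact k1_int (hcF y₀)
  · have h2 : Continuous (fun m : S2 => k1_D F g y₀ m) := hD.comp (continuous_const.prodMk continuous_id)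
    exact (k1_int h2).aestronglyMeasurable
  · exact Eventually.of_forall fun m y hy => hC (y, m) ⟨hy, Set.mem_univ _⟩
  · exact integrable_const _
  · refine Eventually.of_forall fun m y _ => ?_
    have h1 : HasFDerivAt F (fderiv ℝ F (y, (m : E3))) (y, (m : E3)) :=
      (hF.differentiable (by simp) _).hasFDerivAt
    have h2 : HasFDerivAt (fun z : E3 => (z, (m : E3))) (ContinuousLinearMap.inl ℝ E3 E3) y :=
      hasFDerivAt_prodMk_left y (m : E3)
    exact (h1.comp y h2).const_mul (g m)

theorem k1_apply {F : E3 × E3 → ℝ} (hF : ContDiff ℝ 1 F) {g : S2 → ℝ} (hg : Continuous g) (y v : E3) :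
    fderiv ℝ (fun y : E3 => ∫ m : S2, g m * F (y, m) ∂sm) y v =
      ∫ m : S2, g m * fderiv ℝ F (y, m) (v, 0) ∂sm := by
  rw [(k1_fd hF hg y).fderiv]
  have hD := k1_D_cont hF hg
  have h2 : Continuous (fun m : S2 => k1_D F g y m) := hD.comp (continuous_const.prodMk continuous_id)
  rw [ContinuousLinearMap.integral_apply (k1_int h2)]
  rfl

theorem k1_param (n : ℕ) {F : E3 × E3 → ℝ} (hF : ContDiff ℝ ∞ F) {g : S2 → ℝ} (hg : Continuous g) :
    ContDiff ℝ n (fun y : E3 => ∫ m : S2, g m * F (y, m) ∂sm) := by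
  induction n generalizing F with
  | zero =>
    have h1 : ContDiff ℝ 1 F := hF.of_le (by exact_mod_cast le_top)
    have h2 : Continuous (fun y : E3 => ∫ m : S2, g m * F (y, m) ∂sm) :=
      continuous_iff_continuousAt.2 fun y => (k1_fd h1 hg y).continuousAt
    exact_mod_cast contDiff_zero.2 h2
  | succ n ih =>
    have h1 : ContDiff ℝ 1 F := hF.of_le (by exact_mod_cast le_top)
    push_cast
    rw [contDiff_succ_iff_fderiv_apply]
    refine ⟨fun y => (k1_fd h1 hg y).differentiableAt, by simp, ?_⟩
    intro v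
    have hcong : (fun y : E3 => fderiv ℝ (fun y : E3 => ∫ m : S2, g m * F (y, m) ∂sm) y v) =
        fun y : E3 => ∫ m : S2, g m * (fun p : E3 × E3 => fderiv ℝ F p (v, 0)) (y, m) ∂sm := by
      funext y
      exact k1_apply h1 hg y v
    rw [hcong]
    exact ih ((hF.fderiv_right (m := ∞) (by simp)).clm_apply contDiff_const)

theorem int_smooth {F : E3 × E3 → ℝ} (hF : ContDiff ℝ ∞ F) {g : S2 → ℝ} (hg : Continuous g) :
    ContDiff ℝ ∞ (fun y : E3 => ∫ m : S2, g m * F (y, m) ∂sm) := by
  rw [contDiff_infty]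
  intro n
  exact k1_param n hF hg

theorem int_rl {F : E3 × E3 → ℝ} (hF : ContDiff ℝ ∞ F) {g : S2 → ℝ} (hg : Continuous g) (j : Fin 3) (y : E3) :
    rl j (fun y : E3 => ∫ m : S2, g m * F (y, m) ∂sm) y = ∫ m : S2, g m * rl j (fun z => F (z, m)) y ∂sm := by
  have h1 : ContDiff ℝ 1 F := hF.of_le (by exact_mod_cast le_top)
  unfold rl
  rw [k1_apply h1 hg]
  congr 1
  funext m
  have h3 : HasFDerivAt F (fderiv ℝ F (y, (m : E3))) (y, (m : E3)) :=
    (h1.differentiable (by simp) _).hasFDerivAt
  have h2 : HasFDerivAt (fun z : E3 => (z, (m : E3))) (ContinuousLinearMap.inl ℝ E3 E3) y :=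
    hasFDerivAt_prodMk_left y (m : E3)
  have h4 := (h3.comp y h2).fderiv
  have h5 : fderiv ℝ (fun z : E3 => F (z, (m : E3))) y =
      (fderiv ℝ F (y, (m : E3))).comp (ContinuousLinearMap.inl ℝ E3 E3) := h4
  rw [h5]
  rfl

end NullS
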