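import Pool.Agent.Lib.H17S.K.K0

set_option autoImplicit false

/-!
Chunk K2 (S/M). The identities for the kernels. `n`, `m` are points of the sphere, `t = n . m`, `k = 1/kd = 1/(1 + ε - t)`, all derivatives are derivatives along the rotation fields `e_j x n` (`rl j`).
Proof. `kd ε y m = ε + (Σ (y i - m i)^2)/2` has the derivative `Σ (y i - m i) v i` in the direction `v`; for `v = rotv j n = e_j x n` this is `- (e_j x n) . m = - crs n m j` (`NShell.rotv_apply` gives the components of `rotv`;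
`n . rotv j n = 0`). `rl j` of a coordinate `y k` is `rotv j n k`. Quotient rule. With `L_j (n . m) = crs n m j` and `L_j (n x m)_k = ((e_j x n) x m)_k = n_k m_j - δ_jk (n . m)`:
`kb_curl`: `Σ_j L_j (k (n x m)_j) = k² |n x m|² + k (n . m - 3 n . m) = k² (1 - t²) - 2 t k = k² ((1 - t²) - 2 t (1 + ε - t)) = k² ((1 + ε - t)² + 1 - (1 + ε)²) = 1 - ε (2 + ε) k²`.
`ka_curl`: `Σ_j (k² (n x m)_j (m - t n)_j + k (- (n x m)_j n_j - t L_j n_j)) = 0`.
`ka_div`: on the sphere `n x (m - t n) = n x m`, but the extension to `E3` is `y x (m - (y . m) y)/kd = (y x m)/kd` also for all `y` (`y x y = 0`), so `crs y (ka ε y m) = kb ε y m` and `ka_div` is `kb_curl`.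
`kb_div`: `y x (y x m) = (y . m) y - |y|² m`, on the sphere this is `- (m - t n)`; `rl j` of two functions which agree on the sphere agree at `n` (`rl` is a derivative in a tangential direction: `NShell.fderiv_rot_eq`, or `NullQ.hr_val` and
`NullQ.hr_uni`), or differentiate `((y . m) y - |y|² m)/kd` directly (`L_j |y|² = 0`).
In practice: first prove a lemma giving `rl j (fun y => ka ε y m k) n` and `rl j (fun y => kb ε y m k) n` as explicit expressions in `n i`, `m i`, `kd ε n m` (product and quotient rule, `HasFDerivAt`), then set `d = kd ε n m`, use `kd_S2` to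
eliminate `ε = d - 1 + t`, `sq_S2 n`, `sq_S2 m`, `field_simp`, and `linear_combination` or `nlinarith`/`ring` for each of the resulting polynomial identities (for the cancellation of `|m|² = 1`, `|n|² = 1` choose coefficients by hand or by `polyrith`-style search).
Numerically checked.
-/

open MeasureTheory Filter Topology Set
open scoped ContDiff

namespace NullS

open NullPen (E3 S2 sm)
open NullU (rl crs vnrm)
open NullQ (rt HR)

/-- `rl` from the derivative along a line. -/
theorem k2_line {F : E3 → ℝ} {n : E3} (hF : DifferentiableAt ℝ F n) {j : Fin 3} {d : ℝ}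
    (h : HasDerivAt (fun s : ℝ => F (n + s • NShell.rotv j n)) d 0) : rl j F n = d := by
  have h1 : HasDerivAt (fun s : ℝ => n + s • NShell.rotv j n) (NShell.rotv j n) 0 := by
    have h2 : HasDerivAt (fun s : ℝ => s • NShell.rotv j n) ((1 : ℝ) • NShell.rotv j n) 0 :=
      (hasDerivAt_id (0 : ℝ)).smul_const _
    rw [one_smul] at h2
    exact h2.const_add n
  have h3 : HasFDerivAt F (fderiv ℝ F n) (n + (0 : ℝ) • NShell.rotv j n) := by
    rw [zero_smul, add_zero]
    exact hF.hasFDerivAt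
  have h4 := h3.comp_hasDerivAt (0 : ℝ) h1
  exact h4.unique h

theorem k2_co (n v : E3) (k : Fin 3) : HasDerivAt (fun s : ℝ => (n + s • v) k) (v k) 0 := by
  have h1 : HasDerivAt (fun s : ℝ => n k + s * v k) (1 * v k) 0 := ((hasDerivAt_id (0 : ℝ)).mul_const _).const_add _
  rw [one_mul] at h1
  exact h1

theorem k2_kd (ε : ℝ) (n m v : E3) : HasDerivAt (fun s : ℝ => kd ε (n + s • v) m) (∑ i, (n i - m i) * v i) 0 := by
  unfold kd
  have h1 : ∀ i ∈ (Finset.univ : Finset (Fin 3)),
      HasDerivAt (fun s : ℝ => ((n + s • v) i - m i) ^ 2) (2 * (n i - m i) * v i) 0 := by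
    intro i _
    have h2 := ((k2_co n v i).sub_const (m i)).pow 2
    refine h2.congr_deriv ?_
    simp
  have h3 := ((HasDerivAt.fun_sum h1).div_const 2).const_add ε
  refine h3.congr_deriv ?_
  rw [Finset.sum_div]
  refine Finset.sum_congr rfl fun i _ => ?_
  ring

theorem k2_dot (n m v : E3) : HasDerivAt (fun s : ℝ => ∑ i, (n + s • v) i * m i) (∑ i, v i * m i) 0 :=
  HasDerivAt.fun_sum fun i _ => (k2_co n v i).mul_const (m i)

theorem k2_z (n v : E3) : n + (0 : ℝ) • v = n := by rw [zero_smul, add_zero]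

theorem k2_kd_diff (ε : ℝ) (m y : E3) : DifferentiableAt ℝ (fun y : E3 => kd ε y m) y :=
  ((kd_smooth ε).comp (contDiff_id.prodMk contDiff_const)).differentiable (by simp) y

theorem k2_co_diff (k : Fin 3) (y : E3) : DifferentiableAt ℝ (fun y : E3 => y k) y :=
  (co_smooth k).differentiable (by simp) y

theorem k2_div {f g : E3 → ℝ} {y : E3} (hf : DifferentiableAt ℝ f y) (hg : DifferentiableAt ℝ g y) (h : g y ≠ 0) :
    DifferentiableAt ℝ (fun z => f z / g z) y := by
  simp only [div_eq_mul_inv]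
  exact hf.mul (hg.inv h)

/-- `v . m` for `v = e_j x n`. -/
theorem k2_vm (n m : E3) (j : Fin 3) : ∑ i, NShell.rotv j n i * m i = crs (fun i => n i) (fun i => m i) j := by
  unfold crs
  simp only [NShell.rotv_apply, Fin.sum_univ_three]
  fin_cases j <;> simp <;> ring

theorem k2_nmv (n m : E3) (j : Fin 3) :
    ∑ i, (n i - m i) * NShell.rotv j n i = - crs (fun i => n i) (fun i => m i) j := by
  unfold crs
  simp only [NShell.rotv_apply, Fin.sum_univ_three]
  fin_cases j <;> simp <;> ring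

theorem k2_vj (n : E3) (j : Fin 3) : NShell.rotv j n j = 0 := by
  simp only [NShell.rotv_apply]
  fin_cases j <;> simp

theorem kd_rl (ε : ℝ) (n m : S2) (j : Fin 3) : rl j (fun y => kd ε y m) n = - crs (fun i => (n : E3) i) (fun i => (m : E3) i) j := by
  rw [k2_line (k2_kd_diff ε m n) (k2_kd ε n m _), k2_nmv]

theorem log_rl {ε : ℝ} (hε : 0 < ε) (n m : S2) (j : Fin 3) : rl j (fun y => Real.log (kd ε y m)) n = - kb ε n m j := by
  have hne : kd ε n m ≠ 0 := (kd_pos hε n m).ne'
  have h1 : HasDerivAt (fun s : ℝ => Real.log (kd ε ((n : E3) + s • NShell.rotv j n) m))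
      ((∑ i, ((n : E3) i - (m : E3) i) * NShell.rotv j n i) / kd ε ((n : E3) + (0 : ℝ) • NShell.rotv j n) m) 0 :=
    (k2_kd ε n m _).log (by rw [k2_z]; exact hne)
  rw [k2_line ((k2_kd_diff ε m n).log hne) h1, k2_nmv, k2_z]
  unfold kb
  ring

theorem k2_ka {ε : ℝ} (hε : 0 < ε) (n m : S2) (j k : Fin 3) :
    rl j (fun y => ka ε y m k) n =
      ((-(crs (fun i => (n : E3) i) (fun i => (m : E3) i) j * (n : E3) k + (∑ i, (n : E3) i * (m : E3) i) * NShell.rotv j n k)) * kd ε n m -
        ((m : E3) k - (∑ i, (n : E3) i * (m : E3) i) * (n : E3) k) * (- crs (fun i => (n : E3) i) (fun i => (m : E3) i) j)) / kd ε n m ^ 2 := by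
  have hne : kd ε n m ≠ 0 := (kd_pos hε n m).ne'
  have h1 := ((((k2_dot (n : E3) (m : E3) (NShell.rotv j n)).mul (k2_co (n : E3) (NShell.rotv j n) k)).const_sub ((m : E3) k)).div
    (k2_kd ε n m (NShell.rotv j n)) (by rw [k2_z]; exact hne))
  rw [k2_line (F := fun y => ka ε y m k) ?_ h1]
  · simp only [k2_z, Pi.mul_apply]
    rw [k2_nmv, k2_vm]
  · refine k2_div (f := fun y : E3 => (m : E3) k - (∑ i, y i * (m : E3) i) * y k) ?_ (k2_kd_diff ε m n) hne
    refine (differentiableAt_const _).sub (DifferentiableAt.mul ?_ (k2_co_diff k n))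
    exact DifferentiableAt.fun_sum fun i _ => (k2_co_diff i n).mul_const _

theorem k2_kb {ε : ℝ} (hε : 0 < ε) (n m : S2) (j k : Fin 3) :
    rl j (fun y => kb ε y m k) n =
      (crs (fun i => NShell.rotv j n i) (fun i => (m : E3) i) k * kd ε n m -
        crs (fun i => (n : E3) i) (fun i => (m : E3) i) k * (- crs (fun i => (n : E3) i) (fun i => (m : E3) i) j)) / kd ε n m ^ 2 := by
  have hne : kd ε n m ≠ 0 := (kd_pos hε n m).ne'
  have h1 := ((((k2_co (n : E3) (NShell.rotv j n) (k + 1)).mul_const ((m : E3) (k + 2))).sub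
    ((k2_co (n : E3) (NShell.rotv j n) (k + 2)).mul_const ((m : E3) (k + 1)))).div
    (k2_kd ε n m (NShell.rotv j n)) (by rw [k2_z]; exact hne))
  rw [k2_line (F := fun y => kb ε y m k) ?_ h1]
  · simp only [k2_z, Pi.sub_apply]
    rw [k2_nmv]
    unfold crs
    rfl
  · refine k2_div (f := fun y : E3 => y (k + 1) * (m : E3) (k + 2) - y (k + 2) * (m : E3) (k + 1)) ?_ (k2_kd_diff ε m n) hne
    exact ((k2_co_diff _ n).mul_const _).sub ((k2_co_diff _ n).mul_const _)

theorem ka_curl {ε : ℝ} (hε : 0 < ε) (n m : S2) : ∑ j, rl j (fun y => ka ε y m j) n = 0 := by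
  simp only [k2_ka hε, k2_vj, Fin.sum_univ_three]
  unfold crs
  simp
  ring

theorem kb_curl {ε : ℝ} (hε : 0 < ε) (n m : S2) : ∑ j, rl j (fun y => kb ε y m j) n = 1 - ε * (2 + ε) * (1 / kd ε n m ^ 2) := by
  have hne : kd ε n m ≠ 0 := (kd_pos hε n m).ne'
  have h1 := sq_S2 n
  have h2 := sq_S2 m
  have h3 := kd_S2 ε n m
  rw [Fin.sum_univ_three] at h3
  simp only [k2_kb hε, Fin.sum_univ_three]
  have e : (1 : ℝ) - ε * (2 + ε) * (1 / kd ε n m ^ 2) = (kd ε n m ^ 2 - ε * (2 + ε)) / kd ε n m ^ 2 := by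
    field_simp
  rw [e, ← add_div, ← add_div]
  congr 1
  unfold crs
  simp only [NShell.rotv_apply]
  simp
  rw [h3]
  linear_combination ((m : E3) 0 ^ 2 + (m : E3) 1 ^ 2 + (m : E3) 2 ^ 2) * h1 + h2

theorem ka_div {ε : ℝ} (hε : 0 < ε) (n m : S2) :
    ∑ j, rl j (fun y => crs (fun i => y i) (ka ε y m) j) n = 1 - ε * (2 + ε) * (1 / kd ε n m ^ 2) := by
  rw [← kb_curl hε n m]
  refine Finset.sum_congr rfl fun j _ => ?_
  congr 1
  funext y
  unfold kb ka crs
  ring

theorem k2_ka_diff {ε : ℝ} (hε : 0 < ε) (m : S2) (j : Fin 3) (n : E3) : DifferentiableAt ℝ (fun y : E3 => ka ε y m j) n := by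
  refine k2_div (f := fun y : E3 => (m : E3) j - (∑ i, y i * (m : E3) i) * y j) ?_ (k2_kd_diff ε m n) (kd_pos hε n m).ne'
  refine (differentiableAt_const _).sub (DifferentiableAt.mul ?_ (k2_co_diff j n))
  exact DifferentiableAt.fun_sum fun i _ => (k2_co_diff i n).mul_const _

theorem k2_kb_diff {ε : ℝ} (hε : 0 < ε) (m : S2) (k : Fin 3) (n : E3) : DifferentiableAt ℝ (fun y : E3 => kb ε y m k) n := by
  refine k2_div (f := fun y : E3 => y (k + 1) * (m : E3) (k + 2) - y (k + 2) * (m : E3) (k + 1)) ?_ (k2_kd_diff ε m n)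
    (kd_pos hε n m).ne'
  exact ((k2_co_diff _ n).mul_const _).sub ((k2_co_diff _ n).mul_const _)

theorem k2_x {ε : ℝ} (hε : 0 < ε) (n m : S2) (j : Fin 3) :
    crs (fun i => (n : E3) i) (kb ε n m) j = - ka ε n m j := by
  have hne : kd ε n m ≠ 0 := (kd_pos hε n m).ne'
  have hn := sq_S2 n
  unfold kb ka crs
  field_simp
  fin_cases j <;> simp [Fin.sum_univ_three]
  · linear_combination (-(m : E3) 0) * hn
  · linear_combination (-(m : E3) 1) * hn
  · linear_combination (-(m : E3) 2) * hn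

/-- The kernel `n x (n x m)` is minus the tangential part of `m`. -/
theorem k2_kbx {ε : ℝ} (hε : 0 < ε) (n m : S2) (j : Fin 3) :
    rl j (fun y => crs (fun i => y i) (kb ε y m) j) n = - rl j (fun y => ka ε y m j) n := by
  have hG : ∀ n : S2, DifferentiableAt ℝ (fun y : E3 => crs (fun i => y i) (kb ε y m) j) n := by
    intro n
    exact ((k2_co_diff _ n).mul (k2_kb_diff hε m _ n)).sub ((k2_co_diff _ n).mul (k2_kb_diff hε m _ n))
  have hG2 : ∀ n : S2, DifferentiableAt ℝ (fun y : E3 => - ka ε y m j) n := fun n => (k2_ka_diff hε m j n).neg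
  have h1 := NullQ.hr_val hG
  have h2 := NullQ.hr_val hG2
  have e : (fun n : S2 => crs (fun i => (n : E3) i) (kb ε n m) j) = fun n : S2 => - ka ε n m j := by
    funext n
    exact k2_x hε n m j
  rw [e] at h1
  have h3 := NullQ.hr_uni h1 h2 j n
  rw [h3]
  unfold rl
  rw [fderiv_fun_neg]
  rfl

theorem kb_div {ε : ℝ} (hε : 0 < ε) (n m : S2) : ∑ j, rl j (fun y => crs (fun i => y i) (kb ε y m) j) n = 0 := by
  have h1 := ka_curl hε n m
  simp only [k2_kbx hε, Finset.sum_neg_distrib, h1, neg_zero]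

end NullS
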