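import Pool.Agent.Lib.H17S.K.K1
import Pool.Agent.Lib.H17S.K.K2

set_option autoImplicit false

/-!
Chunk K3 (M). Smoothness of `TE`, `PE`, `LE`; divergence and curl. `0 < ε`, the functions `g` are continuous on the sphere.
Proof. Smoothness: `kd` is smooth and positive (`kd_smooth`, `kd_pos`), so the kernels `(y, m) ↦ ka ε y m k`, `kb ε y m k`, `1 / kd ε y m ^ 2`, `log (kd ε y m)` are smooth on `E3 × E3` (`ContDiff.div`, `ContDiff.log`); `int_smooth` (split the integral of the sum: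
`integral_add`, `int_S2`). `TE_curl`: `rl j` of `TE` is (`int_rl`, linearity of `rl`: `fderiv_add`, `fderiv_const_mul`) `-(1/4π) ∫ (g1 m * rl j ka + g2 m * rl j kb)`; sum over `j` (`integral_finset_sum`), `ka_curl`, `kb_curl`:
`-(1/4π) ∫ g2 (1 - ε (2 + ε)/kd²) = PE g2 - av g2`. `TE_div`: `crs y (TE y) j = -(1/4π) ∫ (g1 m * crs y (ka ε y m) j + g2 m * crs y (kb ε y m) j)` (linearity of `crs` in the second argument), the kernels `(y, m) ↦ crs y (ka ε y m) j` are smooth too;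
`ka_div`, `kb_div`. `LE_rl`: `int_rl`, `log_rl`. `LE_grad`: `crs (kb ε n m) n = ((n x m) x n)/kd = (m - (n . m) n)/kd = ka ε n m` on the sphere.
-/

open MeasureTheory Filter Topology Set
open scoped ContDiff

namespace NullS

open NullPen (E3 S2 sm)
open NullU (rl crs vnrm)
open NullQ (rt HR)

theorem k3_ka {ε : ℝ} (hε : 0 < ε) (k : Fin 3) : ContDiff ℝ ∞ (fun p : E3 × E3 => ka ε p.1 p.2 k) := by
  have h1 : ∀ i : Fin 3, ContDiff ℝ ∞ (fun p : E3 × E3 => p.1 i) := fun i => (co_smooth i).comp contDiff_fst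
  have h2 : ∀ i : Fin 3, ContDiff ℝ ∞ (fun p : E3 × E3 => p.2 i) := fun i => (co_smooth i).comp contDiff_snd
  unfold ka
  exact ((h2 k).sub ((ContDiff.sum fun i _ => (h1 i).mul (h2 i)).mul (h1 k))).div (kd_smooth ε)
    (fun p => (kd_pos hε p.1 p.2).ne')

theorem k3_kb {ε : ℝ} (hε : 0 < ε) (k : Fin 3) : ContDiff ℝ ∞ (fun p : E3 × E3 => kb ε p.1 p.2 k) := by
  have h1 : ∀ i : Fin 3, ContDiff ℝ ∞ (fun p : E3 × E3 => p.1 i) := fun i => (co_smooth i).comp contDiff_fst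
  have h2 : ∀ i : Fin 3, ContDiff ℝ ∞ (fun p : E3 × E3 => p.2 i) := fun i => (co_smooth i).comp contDiff_snd
  unfold kb crs
  exact (((h1 _).mul (h2 _)).sub ((h1 _).mul (h2 _))).div (kd_smooth ε)
    (fun p => (kd_pos hε p.1 p.2).ne')

theorem k3_inv {ε : ℝ} (hε : 0 < ε) : ContDiff ℝ ∞ (fun p : E3 × E3 => 1 / kd ε p.1 p.2 ^ 2) :=
  contDiff_const.div ((kd_smooth ε).pow 2) (fun p => pow_ne_zero 2 (kd_pos hε p.1 p.2).ne')

theorem k3_log {ε : ℝ} (hε : 0 < ε) : ContDiff ℝ ∞ (fun p : E3 × E3 => Real.log (kd ε p.1 p.2)) :=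
  (kd_smooth ε).log (fun p => (kd_pos hε p.1 p.2).ne')

theorem k3_int {F : E3 × E3 → ℝ} (hF : ContDiff ℝ ∞ F) {g : S2 → ℝ} (hg : Continuous g) (y : E3) :
    Integrable (fun m : S2 => g m * F (y, m)) sm :=
  int_S2 (hg.mul (hF.continuous.comp (continuous_const.prodMk continuous_subtype_val)))

theorem k3_rl {F : E3 × E3 → ℝ} (hF : ContDiff ℝ ∞ F) (j : Fin 3) (y m : E3) :
    rl j (fun z => F (z, m)) y = fderiv ℝ F (y, m) (NShell.rotv j y, 0) := by
  unfold rl
  have h1 : HasFDerivAt F (fderiv ℝ F (y, m)) (y, m) :=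
    (hF.differentiable (by simp) (y, m)).hasFDerivAt
  have h2 : HasFDerivAt (fun z : E3 => F (z, m)) ((fderiv ℝ F (y, m)).comp (ContinuousLinearMap.inl ℝ E3 E3)) y :=
    h1.comp y (hasFDerivAt_prodMk_left y m)
  rw [h2.fderiv]
  simp

theorem k3_cont {F : E3 × E3 → ℝ} (hF : ContDiff ℝ ∞ F) (j : Fin 3) (y : E3) :
    Continuous (fun m : S2 => rl j (fun z => F (z, m)) y) := by
  simp only [k3_rl hF]
  have h1 : Continuous (fun p : E3 × E3 => fderiv ℝ F p) := hF.continuous_fderiv (by simp)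
  have h2 : Continuous (fun m : S2 => fderiv ℝ F (y, (m : E3))) :=
    h1.comp (continuous_const.prodMk continuous_subtype_val)
  exact h2.clm_apply continuous_const

/-- the general formula -/
theorem k3_key {FA FB : Fin 3 → E3 × E3 → ℝ} (hA : ∀ j, ContDiff ℝ ∞ (FA j)) (hB : ∀ j, ContDiff ℝ ∞ (FB j))
    {g1 g2 : S2 → ℝ} (h1 : Continuous g1) (h2 : Continuous g2) (c : ℝ) (n : E3) :
    ∑ j, rl j (fun y => c * ((∫ m : S2, g1 m * FA j (y, m) ∂sm) + ∫ m : S2, g2 m * FB j (y, m) ∂sm)) n =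
      c * ((∫ m : S2, g1 m * ∑ j, rl j (fun z => FA j (z, m)) n ∂sm) +
        ∫ m : S2, g2 m * ∑ j, rl j (fun z => FB j (z, m)) n ∂sm) := by
  have h3 : ∀ j, rl j (fun y => c * ((∫ m : S2, g1 m * FA j (y, m) ∂sm) + ∫ m : S2, g2 m * FB j (y, m) ∂sm)) n =
      c * ((∫ m : S2, g1 m * rl j (fun z => FA j (z, m)) n ∂sm) +
        ∫ m : S2, g2 m * rl j (fun z => FB j (z, m)) n ∂sm) := by
    intro j
    rw [← int_rl (hA j) h1 j n, ← int_rl (hB j) h2 j n]
    have d1 := ((int_smooth (hA j) h1).differentiable (by simp) n).hasFDerivAt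
    have d2 := ((int_smooth (hB j) h2).differentiable (by simp) n).hasFDerivAt
    have d3 := (d1.fun_add d2).const_mul c
    unfold rl
    rw [d3.fderiv]
    rfl
  rw [Finset.sum_congr rfl (fun j _ => h3 j), ← Finset.mul_sum, Finset.sum_add_distrib]
  congr 2
  · rw [← integral_finset_sum]
    · simp only [Finset.mul_sum]
    · intro j _
      exact int_S2 (h1.mul (k3_cont (hA j) j n))
  · rw [← integral_finset_sum]
    · simp only [Finset.mul_sum]
    · intro j _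
      exact int_S2 (h2.mul (k3_cont (hB j) j n))

theorem k3_TE {ε : ℝ} (hε : 0 < ε) {g1 g2 : S2 → ℝ} (h1 : Continuous g1) (h2 : Continuous g2) (y : E3) (k : Fin 3) :
    TE ε g1 g2 y k = -(1 / (4 * Real.pi)) *
      ((∫ m : S2, g1 m * ka ε y m k ∂sm) + ∫ m : S2, g2 m * kb ε y m k ∂sm) := by
  unfold TE
  rw [integral_add (k3_int (k3_ka hε k) h1 y) (k3_int (k3_kb hε k) h2 y)]

theorem TE_smooth {ε : ℝ} (hε : 0 < ε) {g1 g2 : S2 → ℝ} (h1 : Continuous g1) (h2 : Continuous g2) (k : Fin 3) :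
    ContDiff ℝ ∞ (fun y => TE ε g1 g2 y k) := by
  simp only [k3_TE hε h1 h2]
  exact contDiff_const.mul ((int_smooth (k3_ka hε k) h1).add (int_smooth (k3_kb hε k) h2))

theorem PE_smooth {ε : ℝ} (hε : 0 < ε) {g : S2 → ℝ} (h : Continuous g) : ContDiff ℝ ∞ (PE ε g) :=
  contDiff_const.mul (int_smooth (k3_inv hε) h)

theorem LE_smooth {ε : ℝ} (hε : 0 < ε) {g : S2 → ℝ} (h : Continuous g) : ContDiff ℝ ∞ (LE ε g) :=
  contDiff_const.mul (int_smooth (k3_log hε) h)

theorem k3_PE {ε : ℝ} (hε : 0 < ε) {g : S2 → ℝ} (h : Continuous g) (n : E3) :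
    -(1 / (4 * Real.pi)) * ∫ m : S2, g m * (1 - ε * (2 + ε) * (1 / kd ε n m ^ 2)) ∂sm = PE ε g n - av g := by
  have h3 : ∀ m : S2, g m * (1 - ε * (2 + ε) * (1 / kd ε n m ^ 2)) =
      g m - ε * (2 + ε) * (g m * (1 / kd ε n m ^ 2)) := fun m => by ring
  simp only [h3]
  rw [integral_sub (int_S2 h) ((k3_int (k3_inv hε) h n).const_mul _), integral_const_mul]
  unfold PE av
  ring

theorem TE_curl {ε : ℝ} (hε : 0 < ε) {g1 g2 : S2 → ℝ} (h1 : Continuous g1) (h2 : Continuous g2) (n : S2) :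
    ∑ j, rl j (fun y => TE ε g1 g2 y j) n = PE ε g2 n - av g2 := by
  have h3 := k3_key (FA := fun j p => ka ε p.1 p.2 j) (FB := fun j p => kb ε p.1 p.2 j) (k3_ka hε) (k3_kb hε) h1 h2
    (-(1 / (4 * Real.pi))) (n : E3)
  simp only [k3_TE hε h1 h2]
  rw [h3]
  simp only [ka_curl hε, kb_curl hε]
  rw [← k3_PE hε h2]
  simp

theorem k3_crs {ε : ℝ} (hε : 0 < ε) {g1 g2 : S2 → ℝ} (h1 : Continuous g1) (h2 : Continuous g2) (y : E3) (j : Fin 3) :
    crs (fun i => y i) (TE ε g1 g2 y) j = -(1 / (4 * Real.pi)) *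
      ((∫ m : S2, g1 m * crs (fun i => y i) (ka ε y m) j ∂sm) +
        ∫ m : S2, g2 m * crs (fun i => y i) (kb ε y m) j ∂sm) := by
  have h3 : ∀ (g : S2 → ℝ) (f : S2 → Fin 3 → ℝ), (∀ k, Integrable (fun m => g m * f m k) sm) →
      ∫ m : S2, g m * crs (fun i => y i) (f m) j ∂sm =
        y (j + 1) * (∫ m : S2, g m * f m (j + 2) ∂sm) - y (j + 2) * ∫ m : S2, g m * f m (j + 1) ∂sm := by
    intro g f hf
    have h4 : ∀ m : S2, g m * crs (fun i => y i) (f m) j =
        y (j + 1) * (g m * f m (j + 2)) - y (j + 2) * (g m * f m (j + 1)) := fun m => by unfold crs; ring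
    simp only [h4]
    rw [integral_sub ((hf _).const_mul _) ((hf _).const_mul _), integral_const_mul, integral_const_mul]
  rw [h3 g1 (fun m => ka ε y m) (fun k => k3_int (k3_ka hε k) h1 y),
    h3 g2 (fun m => kb ε y m) (fun k => k3_int (k3_kb hε k) h2 y)]
  unfold crs
  rw [k3_TE hε h1 h2, k3_TE hε h1 h2]
  ring

theorem TE_div {ε : ℝ} (hε : 0 < ε) {g1 g2 : S2 → ℝ} (h1 : Continuous g1) (h2 : Continuous g2) (n : S2) :
    ∑ j, rl j (fun y => crs (fun i => y i) (TE ε g1 g2 y) j) n = PE ε g1 n - av g1 := by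
  have hA : ∀ j : Fin 3, ContDiff ℝ ∞ (fun p : E3 × E3 => crs (fun i => p.1 i) (ka ε p.1 p.2) j) := fun j =>
    (((co_smooth _).comp contDiff_fst).mul (k3_ka hε _)).sub (((co_smooth _).comp contDiff_fst).mul (k3_ka hε _))
  have hB : ∀ j : Fin 3, ContDiff ℝ ∞ (fun p : E3 × E3 => crs (fun i => p.1 i) (kb ε p.1 p.2) j) := fun j =>
    (((co_smooth _).comp contDiff_fst).mul (k3_kb hε _)).sub (((co_smooth _).comp contDiff_fst).mul (k3_kb hε _))
  have h3 := k3_key (FA := fun j p => crs (fun i => p.1 i) (ka ε p.1 p.2) j)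
    (FB := fun j p => crs (fun i => p.1 i) (kb ε p.1 p.2) j) hA hB h1 h2 (-(1 / (4 * Real.pi))) (n : E3)
  simp only [k3_crs hε h1 h2]
  rw [h3]
  simp only [ka_div hε, kb_div hε]
  rw [← k3_PE hε h1]
  simp

theorem LE_rl {ε : ℝ} (hε : 0 < ε) {g : S2 → ℝ} (h : Continuous g) (n : S2) (j : Fin 3) :
    rl j (LE ε g) n = TE ε (fun _ => 0) g n j := by
  have d1 := ((int_smooth (k3_log hε) h).differentiable (by simp) (n : E3)).hasFDerivAt.const_mul
    (1 / (4 * Real.pi))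
  have h3 : rl j (LE ε g) n = 1 / (4 * Real.pi) *
      rl j (fun y : E3 => ∫ m : S2, g m * Real.log (kd ε y m) ∂sm) n := by
    unfold rl LE
    rw [d1.fderiv]
    rfl
  rw [h3, int_rl (k3_log hε) h j n, k3_TE hε continuous_const h]
  simp only [log_rl hε, zero_mul, integral_zero, zero_add, mul_neg, integral_neg]
  ring

theorem LE_grad {ε : ℝ} (hε : 0 < ε) {g : S2 → ℝ} (h : Continuous g) (n : S2) (k : Fin 3) :
    TE ε g (fun _ => 0) n k = crs (TE ε (fun _ => 0) g n) (fun i => (n : E3) i) k := by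
  have h1 : ∀ j, TE ε (fun _ => 0) g n j = -(1 / (4 * Real.pi)) * ∫ m : S2, g m * kb ε n m j ∂sm := by
    intro j
    rw [k3_TE hε continuous_const h]
    simp
  have h2 : TE ε g (fun _ => 0) n k = -(1 / (4 * Real.pi)) * ∫ m : S2, g m * ka ε n m k ∂sm := by
    rw [k3_TE hε h continuous_const]
    simp
  have h3 : ∀ m : S2, g m * ka ε n m k = (g m * kb ε n m (k + 1)) * (n : E3) (k + 2) -
      (g m * kb ε n m (k + 2)) * (n : E3) (k + 1) := by
    intro m
    have h4 := sq_S2 n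
    have h5 : ka ε n m k = kb ε n m (k + 1) * (n : E3) (k + 2) - kb ε n m (k + 2) * (n : E3) (k + 1) := by
      unfold ka kb crs
      rw [div_mul_eq_mul_div, div_mul_eq_mul_div, ← sub_div]
      congr 1
      fin_cases k
      · simp [Fin.sum_univ_three]
        linear_combination (-(m : E3) 0) * h4
      · simp [Fin.sum_univ_three]
        linear_combination (-(m : E3) 1) * h4
      · simp [Fin.sum_univ_three]
        linear_combination (-(m : E3) 2) * h4
    rw [h5]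
    ring
  rw [h2]
  simp only [h3]
  rw [integral_sub ((k3_int (k3_kb hε _) h n).mul_const _) ((k3_int (k3_kb hε _) h n).mul_const _),
    integral_mul_const, integral_mul_const]
  unfold crs
  rw [h1, h1]
  ring

end NullS
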