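import Pool.Agent.Lib.H17S.K.K0
import Pool.Agent.Lib.H74P.L0B

set_option autoImplicit false

/-!
Chunk K4 (M). Archimedes: integrals over the sphere of functions of `n . m`.
Proof. `NShell.Fr.uu_moment` (`Lib/NullShell/P2.lean`) for the standard frame `NShell.stdFr`: `∫ ((1 + n . m)/2)^k dm = 4π/(k + 1) = 4π ∫_0^1 u^k du` for every natural number `k` (`NShell.stdFr.uu n m = (1 + Σ n i * m i)/2`: unfold, the functions `(stdFr.sa.x i).1 n` are the
coordinates `n i` by definition, `rfl` or `show`; `stdFr.m = sm` by definition). By linearity `∫ p (uu) dm = 4π ∫_0^1 p (u) du` for polynomials `p`. For `F` continuous on `[-1,1]` let `G (u) = F (2 u - 1)`, continuous on `[0,1]`; by the Weierstrass theorem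
(`exists_polynomial_near_of_continuousOn 0 1 G`) there are polynomials `p` with `|p - G| < δ` on `[0,1]`; both sides change by at most `4π δ` (`uu` has its values in `[0,1]`: `uu_nonneg`, `uu_le_one`). So `∫ F (n . m) dm = 4π ∫_0^1 F (2u - 1) du = 2π ∫_{-1}^1 F (t) dt`.
-/

open MeasureTheory Filter Topology Set
open scoped ContDiff

namespace NullS

open NullPen (E3 S2 sm)
open NullU (rl crs vnrm)
open NullQ (rt HR)

theorem dot_mem (n m : S2) : (∑ i, (n : E3) i * (m : E3) i) ∈ Icc (-1 : ℝ) 1 := by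
  have h1 := sq_S2 n
  have h2 := sq_S2 m
  simp only [Fin.sum_univ_three]
  constructor
  · nlinarith [sq_nonneg ((n : E3) 0 + (m : E3) 0), sq_nonneg ((n : E3) 1 + (m : E3) 1), sq_nonneg ((n : E3) 2 + (m : E3) 2)]
  · nlinarith [sq_nonneg ((n : E3) 0 - (m : E3) 0), sq_nonneg ((n : E3) 1 - (m : E3) 1), sq_nonneg ((n : E3) 2 - (m : E3) 2)]

theorem k4_dot_cont (n : S2) : Continuous (fun m : S2 => ∑ i, (n : E3) i * (m : E3) i) := by
  refine continuous_finset_sum _ fun i _ => continuous_const.mul ?_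
  exact (co_smooth i).continuous.comp continuous_subtype_val

theorem k4_moment (k : ℕ) (n : S2) :
    ∫ m : S2, ((1 + ∑ i, (n : E3) i * (m : E3) i) / 2) ^ k ∂sm = 4 * Real.pi / (k + 1) :=
  NShell.stdFr.uu_moment k n

theorem k4_poly (p : Polynomial ℝ) (n : S2) :
    ∫ m : S2, p.eval ((1 + ∑ i, (n : E3) i * (m : E3) i) / 2) ∂sm = 4 * Real.pi * ∫ u in (0 : ℝ)..1, p.eval u := by
  have hc : Continuous (fun m : S2 => (1 + ∑ i, (n : E3) i * (m : E3) i) / 2) :=
    (continuous_const.add (k4_dot_cont n)).div_const 2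
  induction p using Polynomial.induction_on' with
  | add p q hp hq =>
    simp only [Polynomial.eval_add]
    have ip : Integrable (fun m : S2 => p.eval ((1 + ∑ i, (n : E3) i * (m : E3) i) / 2)) sm :=
      int_S2 (p.continuous.comp hc)
    have iq : Integrable (fun m : S2 => q.eval ((1 + ∑ i, (n : E3) i * (m : E3) i) / 2)) sm :=
      int_S2 (q.continuous.comp hc)
    rw [integral_add ip iq,
      intervalIntegral.integral_add (p.continuous.intervalIntegrable _ _) (q.continuous.intervalIntegrable _ _), hp, hq]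
    ring
  | monomial k a =>
    simp only [Polynomial.eval_monomial]
    rw [integral_const_mul, intervalIntegral.integral_const_mul, k4_moment, integral_pow]
    simp only [one_pow]
    rw [zero_pow (Nat.succ_ne_zero k)]
    ring

theorem hat_box {F : ℝ → ℝ} (hF : ContinuousOn F (Icc (-1) 1)) (n : S2) :
    ∫ m : S2, F (∑ i, (n : E3) i * (m : E3) i) ∂sm = 2 * Real.pi * ∫ t in (-1 : ℝ)..1, F t := by
  haveI : IsFiniteMeasure sm := NShell.stdFr.fin
  have hpi := Real.pi_pos
  have hu : Continuous (fun m : S2 => (1 + ∑ i, (n : E3) i * (m : E3) i) / 2) :=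
    (continuous_const.add (k4_dot_cont n)).div_const 2
  have huI : ∀ m : S2, (1 + ∑ i, (n : E3) i * (m : E3) i) / 2 ∈ Icc (0 : ℝ) 1 := by
    intro m
    have h := dot_mem n m
    rw [mem_Icc] at h ⊢
    constructor <;> linarith [h.1, h.2]
  have hG : ContinuousOn (fun u : ℝ => F (2 * u - 1)) (Icc 0 1) := by
    refine hF.comp (by fun_prop) ?_
    intro u hu
    rw [mem_Icc] at hu ⊢
    constructor <;> linarith [hu.1, hu.2]
  have hFc : Continuous (fun m : S2 => F (∑ i, (n : E3) i * (m : E3) i)) :=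
    hF.comp_continuous (k4_dot_cont n) (fun m => dot_mem n m)
  have hsub : 2 * Real.pi * ∫ t in (-1 : ℝ)..1, F t = 4 * Real.pi * ∫ u in (0 : ℝ)..1, F (2 * u - 1) := by
    have h1 := intervalIntegral.integral_comp_mul_sub (a := (0 : ℝ)) (b := 1) F (c := 2) two_ne_zero 1
    rw [h1]
    norm_num
    ring
  rw [hsub]
  apply eq_of_forall_dist_le
  intro ε hε
  rw [Real.dist_eq]
  obtain ⟨p, hp⟩ := exists_polynomial_near_of_continuousOn 0 1 _ hG (ε / (8 * Real.pi)) (by positivity)
  have hpc : Continuous (fun m : S2 => p.eval ((1 + ∑ i, (n : E3) i * (m : E3) i) / 2)) := p.continuous.comp hu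
  have e1 : |(∫ m : S2, p.eval ((1 + ∑ i, (n : E3) i * (m : E3) i) / 2) ∂sm) -
      ∫ m : S2, F (∑ i, (n : E3) i * (m : E3) i) ∂sm| ≤ ε / (8 * Real.pi) * (4 * Real.pi) := by
    rw [← integral_sub (int_S2 hpc) (int_S2 hFc), ← sm_real, ← Real.norm_eq_abs]
    apply norm_integral_le_of_norm_le_const
    refine Eventually.of_forall fun m => ?_
    have h1 := hp _ (huI m)
    have h2 : 2 * ((1 + ∑ i, (n : E3) i * (m : E3) i) / 2) - 1 = ∑ i, (n : E3) i * (m : E3) i := by ring
    rw [h2] at h1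
    exact h1.le
  have e2 : |(∫ u in (0 : ℝ)..1, p.eval u) - ∫ u in (0 : ℝ)..1, F (2 * u - 1)| ≤ ε / (8 * Real.pi) := by
    rw [← intervalIntegral.integral_sub (p.continuous.intervalIntegrable _ _)
      (hG.intervalIntegrable_of_Icc zero_le_one), ← Real.norm_eq_abs]
    have h1 := intervalIntegral.norm_integral_le_of_norm_le_const (a := (0 : ℝ)) (b := 1)
      (f := fun u => p.eval u - F (2 * u - 1)) (C := ε / (8 * Real.pi)) (fun u hu => by
        rw [uIoc_of_le zero_le_one] at hu
        exact (hp u ⟨hu.1.le, hu.2⟩).le)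
    simpa using h1
  rw [k4_poly] at e1
  rw [abs_le] at e1 e2 ⊢
  have h8 : ε / (8 * Real.pi) * (4 * Real.pi) = ε / 2 := by
    field_simp
    norm_num
  have h9 : 4 * Real.pi * (ε / (8 * Real.pi)) = ε / 2 := by
    field_simp
    norm_num
  have h10 := mul_le_mul_of_nonneg_left e2.1 (by positivity : 0 ≤ 4 * Real.pi)
  have h11 := mul_le_mul_of_nonneg_left e2.2 (by positivity : 0 ≤ 4 * Real.pi)
  rw [mul_neg, h9, mul_sub] at h10
  rw [h9, mul_sub] at h11
  rw [h8] at e1
  constructor <;> linarith [e1.1, e1.2]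

end NullS
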