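import Pool.Agent.Lib.H17S.K.K4

set_option autoImplicit false

/-!
Chunk K5 (S/M). `TE` is tangential, vanishes on constants; linearity.
Proof. `TE_tan`: on the sphere `Σ_k n_k (m_k - (n . m) n_k) = 0` and `Σ_k n_k (n x m)_k = 0`, so the integrand of `Σ_k TE k * n k` vanishes (sum of integrals = integral of the sum: `integral_finset_sum`, the kernels are continuous on the sphere: `kd` is continuous and positive).
`TE_const`: the half turn about `n`, `σ m = 2 (n . m) n - m`, is a linear isometry of `E3` (`(Submodule.span ℝ {n}).reflection`: `Submodule.reflection_apply`/`reflection_singleton_apply`, or build it; it is an involution preserving the norm)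
and preserves `sm` (`PenroseSph.int_sphMap`); `n . σ m = n . m`, so `kd ε n (σ m) = kd ε n m` (`kd_S2`), and `ka`, `kb` change sign: `σ m - (n . m) n = - (m - (n . m) n)`, `n x σ m = - n x m`. So the integral of `c1 * ka + c2 * kb` equals its negative.
`TE_add`, `TE_smul`: linearity of the integral.
-/

open MeasureTheory Filter Topology Set
open scoped ContDiff

namespace NullS

open NullPen (E3 S2 sm)
open NullU (rl crs vnrm)
open NullQ (rt HR)

theorem k5_co (k : Fin 3) : Continuous (fun m : S2 => (m : E3) k) :=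
  (co_smooth k).continuous.comp continuous_subtype_val

theorem k5_kd (ε : ℝ) (y : E3) : Continuous (fun m : S2 => kd ε y m) := by
  unfold kd
  exact continuous_const.add ((continuous_finsetSum _ fun i _ =>
    (continuous_const.sub (k5_co i)).pow 2).div_const 2)

theorem k5_ka {ε : ℝ} (hε : 0 < ε) (y : E3) (k : Fin 3) : Continuous (fun m : S2 => ka ε y m k) := by
  unfold ka
  exact ((k5_co k).sub ((continuous_finsetSum _ fun i _ =>
    continuous_const.mul (k5_co i)).mul continuous_const)).div (k5_kd ε y) fun m => (kd_pos hε y m).ne'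

theorem k5_kb {ε : ℝ} (hε : 0 < ε) (y : E3) (k : Fin 3) : Continuous (fun m : S2 => kb ε y m k) := by
  have h1 : Continuous (fun m : S2 => y (k + 1) * (m : E3) (k + 2)) := continuous_const.mul (k5_co (k + 2))
  have h2 : Continuous (fun m : S2 => y (k + 2) * (m : E3) (k + 1)) := continuous_const.mul (k5_co (k + 1))
  exact (h1.sub h2).div (k5_kd ε y) fun m => (kd_pos hε y m).ne'

theorem k5_int {ε : ℝ} (hε : 0 < ε) {g1 g2 : S2 → ℝ} (h1 : Continuous g1) (h2 : Continuous g2) (y : E3) (k : Fin 3) :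
    Continuous (fun m : S2 => g1 m * ka ε y m k + g2 m * kb ε y m k) :=
  (h1.mul (k5_ka hε y k)).add (h2.mul (k5_kb hε y k))

theorem TE_tan {ε : ℝ} (hε : 0 < ε) {g1 g2 : S2 → ℝ} (h1 : Continuous g1) (h2 : Continuous g2) (n : S2) :
    ∑ k, TE ε g1 g2 n k * (n : E3) k = 0 := by
  have e1 : ∀ k : Fin 3, TE ε g1 g2 n k * (n : E3) k =
      -(1 / (4 * Real.pi)) * ∫ m : S2, (g1 m * ka ε n m k + g2 m * kb ε n m k) * (n : E3) k ∂sm := by
    intro k
    unfold TE
    rw [integral_mul_const]
    ring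
  simp only [e1]
  have e3 : ∀ k : Fin 3, Integrable (fun m : S2 => (g1 m * ka ε n m k + g2 m * kb ε n m k) * (n : E3) k) sm :=
    fun k => int_S2 ((k5_int hε h1 h2 (n : E3) k).mul continuous_const)
  rw [← Finset.mul_sum, ← integral_finsetSum _ (fun k _ => e3 k)]
  have e2 : ∀ m : S2, ∑ k, (g1 m * ka ε n m k + g2 m * kb ε n m k) * (n : E3) k = 0 := by
    intro m
    have h3 := sq_S2 n
    have h4 := (kd_pos hε n m).ne'
    have h5 : (∑ k, (g1 m * ka ε n m k + g2 m * kb ε n m k) * (n : E3) k) =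
        g1 m * ((∑ i, (n : E3) i * (m : E3) i) * (1 - ((n : E3) 0 ^ 2 + (n : E3) 1 ^ 2 + (n : E3) 2 ^ 2))) / kd ε n m := by
      simp only [ka, kb, crs, Fin.sum_univ_three, Fin.isValue]
      have a1 : (0 : Fin 3) + 1 = 1 := rfl
      have a2 : (0 : Fin 3) + 2 = 2 := rfl
      have a3 : (1 : Fin 3) + 1 = 2 := rfl
      have a4 : (1 : Fin 3) + 2 = 0 := rfl
      have a5 : (2 : Fin 3) + 1 = 0 := rfl
      have a6 : (2 : Fin 3) + 2 = 1 := rfl
      rw [a1, a2, a3, a4, a5, a6]
      field_simp
      ring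
    rw [h5, h3]
    ring
  simp only [e2, integral_zero, mul_zero]

theorem k5_turn (n m : S2) (k : Fin 3) :
    ((Pool.Agent.Lib.PenroseSph.sphMap (Submodule.span ℝ {(n : E3)}).reflection m : S2) : E3) k =
      2 * (∑ i, (n : E3) i * (m : E3) i) * (n : E3) k - (m : E3) k := by
  have h1 : ((Pool.Agent.Lib.PenroseSph.sphMap (Submodule.span ℝ {(n : E3)}).reflection m : S2) : E3) =
      (Submodule.span ℝ {(n : E3)}).reflection (m : E3) := rfl
  rw [h1, Submodule.reflection_singleton_apply]
  have h2 : ‖(n : E3)‖ = 1 := by simp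
  rw [h2]
  have h3 : inner ℝ (n : E3) (m : E3) = ∑ i, (n : E3) i * (m : E3) i := by
    rw [PiLp.inner_apply]
    refine Finset.sum_congr rfl fun i _ => ?_
    simp [mul_comm]
  rw [h3]
  simp
  ring

theorem TE_const {ε : ℝ} (hε : 0 < ε) (c1 c2 : ℝ) (n : S2) (k : Fin 3) : TE ε (fun _ => c1) (fun _ => c2) n k = 0 := by
  set σ : S2 → S2 := fun m => Pool.Agent.Lib.PenroseSph.sphMap (Submodule.span ℝ {(n : E3)}).reflection m with hσ
  set F : S2 → ℝ := fun m => c1 * ka ε n m k + c2 * kb ε n m k with hF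
  have hc : Continuous F := k5_int hε continuous_const continuous_const (n : E3) k
  have h1 : ∫ m, F (σ m) ∂sm = ∫ m, F m ∂sm :=
    Pool.Agent.Lib.PenroseSph.int_sphMap (Submodule.span ℝ {(n : E3)}).reflection F hc
  have h2 : ∀ m, F (σ m) = - F m := by
    intro m
    have hk := fun k => k5_turn n m k
    have h3 := sq_S2 n
    have hd : ∑ i, (n : E3) i * (σ m : E3) i = ∑ i, (n : E3) i * (m : E3) i := by
      simp only [hσ, hk, Fin.sum_univ_three]
      linear_combination 2 * ((n : E3) 0 * (m : E3) 0 + (n : E3) 1 * (m : E3) 1 + (n : E3) 2 * (m : E3) 2) * h3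
    have hkd : kd ε n (σ m) = kd ε n m := by
      rw [kd_S2, kd_S2, hd]
    have ha : ka ε n (σ m) k = - ka ε n m k := by
      unfold ka
      rw [hkd, hd]
      simp only [hσ, hk]
      ring
    have hb : kb ε n (σ m) k = - kb ε n m k := by
      unfold kb crs
      rw [hkd]
      simp only [hσ, hk]
      ring
    simp only [hF, ha, hb]
    ring
  simp only [h2, integral_neg] at h1
  have h4 : ∫ m, F m ∂sm = 0 := by linarith
  unfold TE
  show -(1 / (4 * Real.pi)) * ∫ m, F m ∂sm = 0
  rw [h4, mul_zero]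

theorem TE_sub {ε : ℝ} (hε : 0 < ε) {g1 g2 h1 h2 : S2 → ℝ} (cg1 : Continuous g1) (cg2 : Continuous g2) (ch1 : Continuous h1) (ch2 : Continuous h2)
    (n : S2) (k : Fin 3) : TE ε (fun m => g1 m - h1 m) (fun m => g2 m - h2 m) n k = TE ε g1 g2 n k - TE ε h1 h2 n k := by
  unfold TE
  rw [← mul_sub, ← integral_sub (int_S2 (k5_int hε cg1 cg2 _ k)) (int_S2 (k5_int hε ch1 ch2 _ k))]
  congr 1
  refine integral_congr_ae (Eventually.of_forall fun m => ?_)
  show (g1 m - h1 m) * ka ε n m k + (g2 m - h2 m) * kb ε n m k =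
    g1 m * ka ε n m k + g2 m * kb ε n m k - (h1 m * ka ε n m k + h2 m * kb ε n m k)
  ring

end NullS
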