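import Pool.Agent.Lib.H17S.K.K4

set_option autoImplicit false

/-!
Chunk K6 (M). The bound `|TE| <= 3 M`, uniformly in `ε`, and its Hoelder version `|TE g (n) - TE g (n')| <= 60 M |n - n'|^(1/2)`, uniformly in `ε`.
Proof. `n`, `m` on the sphere, `x = m - n`, `D = kd ε n m = ε + |x|²/2`, so `|x| <= sqrt (2 D)`.
Write the integrand of `TE` as the vector `K (n, m) = g1 ka + g2 kb`; `ka` and `kb` are orthogonal and have the same length `|n x m|/D <= |x|/D <= sqrt 2 * D^(-1/2)`, so `|K| <= M sqrt 2 D^(-1/2)` if `g1² + g2² <= M²`.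
`vnrm` of an integral of a vector is at most the integral of `vnrm` (for instance: let `w` be the vector `∫ K`, then `|w|² = ∫ w . K <= |w| ∫ |K|`). `hat_box`: `∫ D^(-1/2) dm = 2π ∫_{-1}^1 (1 + ε - t)^(-1/2) dt = 4π (sqrt (2 + ε) - sqrt ε) <= 4π sqrt 3`
(`integral_rpow` or the primitive `-2 sqrt (1 + ε - t)`); so `|TE| <= (1/4π) M sqrt 2 4π sqrt 3 <= 3 M`.
Second part. `x = m - n`, `y = m - n'`, `D, D'` the values of `kd`, `a = sqrt (2 D) >= |x|`, `b = sqrt (2 D') >= |y|`, `d = |n - n'| = |x - y|`, `N(x) = x/(ε + |x|²/2)`.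
(1) `|N(x) - N(y)| = |ε (x - y) + (x |y|² - y |x|²)/2|/(D D') <= d (ε + |x||y|/2)/(D D') <= d/sqrt (D D') = 2 d/(a b)` (`| x |y|² - y |x|² | = |x||y||x - y|`; `ε + |x||y|/2 <= sqrt (D D')` by Cauchy-Schwarz).
(2) `ka ε n m = N(x) + (1 - ε/D) n` on the sphere (`m - (n . m) n = x + (1 - n . m) n`, `1 - n . m = |x|²/2 = D - ε`), and `|(1 - ε/D) n - (1 - ε/D') n'| <= d + |ε/D - ε/D'|`, `|ε/D - ε/D'| = ε | |x|² - |y|² |/(2 D D') <= ε d (|x| + |y|)/(2 D D')`;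
 if, say, `b <= a`: `|x| + |y| <= 2 a`, `2 D D' = a² b²/2`, `ε <= D' = b²/2`, so it is `<= (b²/2) d 2 a * 2/(a² b²) = 2 d/a`; in general `<= 2 d/max a b <= 6 d/(a b)` as `a, b <= sqrt 6 < 3` (`ε <= 1`); also `d <= 6 d/(a b)`. So `|ka - ka'| <= 14 d/(a b)`.
 `kb ε n m = n x ka ε n m`, so `|kb - kb'| <= |ka - ka'| + d |ka'| <= 14 d/(a b) + 2 d/b <= 20 d/(a b)`.
 So `|K (n, m) - K (n', m)| <= |g1||ka - ka'| + |g2||kb - kb'| <= 34 M d/(a b)`.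
(3) Also `|K (n, m) - K (n', m)| <= |K| + |K'| <= 2 M/a + 2 M/b = 2 M (a + b)/(a b)`. So `|K - K'|² <= 68 M² d (a + b)/(a b)²` and `|K - K'| <= 9 M sqrt d (sqrt a + sqrt b)/(a b) <= 9 M sqrt d (a^(-1/2) b^(-1) + a^(-1) b^(-1/2)) <= 18 M sqrt d (a^(-3/2) + b^(-3/2))`.
(4) `∫ a^(-3/2) dm = 2π ∫_{-1}^1 (2 (1 + ε - t))^(-3/4) dt <= 2π 2^(-3/4) 4 3^(1/4) <= 8 π`. Total: `(1/4π) 18 M sqrt d 16 π = 72 M sqrt d`. (Any constant is fine; the statement below has `100`.)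
Simplification allowed: any other proof, and any bigger constant instead of `100` if you tell helper28 (nothing depends on the value).
-/

open MeasureTheory Filter Topology Set
open scoped ContDiff

namespace NullS

open NullPen (E3 S2 sm)
open NullU (rl crs vnrm)
open NullQ (rt HR)

theorem k6_fin : IsFiniteMeasure sm := by
  change IsFiniteMeasure ((volume : Measure E3).toSphere)
  infer_instance

theorem k6_vnrm (v : Fin 3 → ℝ) : vnrm v = ‖(WithLp.toLp 2 v : E3)‖ := by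
  unfold vnrm
  rw [EuclideanSpace.norm_eq]
  simp [Real.norm_eq_abs, sq_abs]

/-- `vnrm` of an integral. -/
theorem k6_int_le {F : S2 → Fin 3 → ℝ} (hF : ∀ k, Continuous fun m => F m k) {b : S2 → ℝ} (hb : Continuous b)
    (h : ∀ m, vnrm (F m) ≤ b m) : vnrm (fun k => ∫ m, F m k ∂sm) ≤ ∫ m, b m ∂sm := by
  have := k6_fin
  obtain ⟨G, hG⟩ : ∃ G : S2 → E3, G = fun m => WithLp.toLp 2 (F m) := ⟨_, rfl⟩
  have hGc : Continuous G := by
    rw [hG]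
    exact (PiLp.continuous_toLp 2 _).comp (continuous_pi hF)
  have hGi : Integrable G sm := hGc.integrable_of_hasCompactSupport (HasCompactSupport.of_compactSpace _)
  have e : (WithLp.toLp 2 (fun k => ∫ m, F m k ∂sm) : E3) = ∫ m, G m ∂sm := by
    ext k
    have h1 := (EuclideanSpace.proj k : E3 →L[ℝ] ℝ).integral_comp_comm hGi
    rw [hG] at h1 ⊢
    exact h1
  rw [k6_vnrm, e]
  refine norm_integral_le_of_norm_le (int_S2 hb) (Eventually.of_forall fun m => ?_)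
  rw [hG, ← k6_vnrm]
  exact h m

/-- `∫ kd^(-r)`. -/
theorem k6_int {ε : ℝ} (hε : 0 < ε) (hε1 : ε ≤ 1) {r : ℝ} (hr1 : r < 1) (n : S2) :
    ∫ m : S2, (kd ε n m) ^ (-r) ∂sm ≤ 2 * Real.pi * ((3 : ℝ) ^ (1 - r) / (1 - r)) := by
  have h1 : ∫ m : S2, (kd ε n m) ^ (-r) ∂sm =
      ∫ m : S2, (fun t : ℝ => (ε + 1 - t) ^ (-r)) (∑ i, (n : E3) i * (m : E3) i) ∂sm := by
    congr 1
    funext m
    rw [kd_S2]
  have hF : ContinuousOn (fun t : ℝ => (ε + 1 - t) ^ (-r)) (Icc (-1) 1) := by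
    refine ContinuousOn.rpow_const (by fun_prop) ?_
    intro t ht
    left
    have := ht.2
    intro h
    linarith
  rw [h1, hat_box hF n]
  have h2 : ∫ t in (-1 : ℝ)..1, (ε + 1 - t) ^ (-r) = ((ε + 2) ^ (1 - r) - ε ^ (1 - r)) / (1 - r) := by
    rw [intervalIntegral.integral_comp_sub_left (fun x : ℝ => x ^ (-r)) (ε + 1), integral_rpow (Or.inl (by linarith))]
    have e1 : ε + 1 - 1 = ε := by ring
    have e2 : ε + 1 - -1 = ε + 2 := by ring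
    have e3 : -r + 1 = 1 - r := by ring
    rw [e1, e2, e3]
  rw [h2]
  refine mul_le_mul_of_nonneg_left ?_ (by positivity)
  refine div_le_div_of_nonneg_right ?_ (by linarith)
  have h3 : (ε + 2) ^ (1 - r) ≤ (3 : ℝ) ^ (1 - r) :=
    Real.rpow_le_rpow (by linarith) (by linarith) (by linarith)
  have h4 : 0 ≤ ε ^ (1 - r) := Real.rpow_nonneg hε.le _
  linarith

theorem k6_kd_cont (ε : ℝ) (n : S2) : Continuous fun m : S2 => kd ε n m := by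
  have h := (kd_smooth ε).continuous
  exact h.comp (f := fun m : S2 => ((n : E3), (m : E3))) (by fun_prop)

theorem k6_ka_cont {ε : ℝ} (hε : 0 < ε) (n : S2) (k : Fin 3) : Continuous fun m : S2 => ka ε n m k := by
  unfold ka
  refine Continuous.div ?_ (k6_kd_cont ε n) (fun m => (kd_pos hε _ _).ne')
  fun_prop

theorem k6_kb_cont {ε : ℝ} (hε : 0 < ε) (n : S2) (k : Fin 3) : Continuous fun m : S2 => kb ε n m k := by
  unfold kb
  refine Continuous.div ?_ (k6_kd_cont ε n) (fun m => (kd_pos hε _ _).ne')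
  unfold crs
  fun_prop

/-- the kernel of `TE` -/
noncomputable def k6K (ε : ℝ) (g1 g2 : S2 → ℝ) (n m : S2) (k : Fin 3) : ℝ := g1 m * ka ε n m k + g2 m * kb ε n m k

theorem k6K_cont {ε : ℝ} (hε : 0 < ε) {g1 g2 : S2 → ℝ} (h1 : Continuous g1) (h2 : Continuous g2) (n : S2) (k : Fin 3) :
    Continuous fun m => k6K ε g1 g2 n m k :=
  (h1.mul (k6_ka_cont hε n k)).add (h2.mul (k6_kb_cont hε n k))

theorem k6_lin3 (a b c : ℝ) (x y z : Fin 3 → ℝ) : ∑ k, (a * x k + b * y k + c * z k) ^ 2 =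
    a ^ 2 * ∑ k, x k ^ 2 + b ^ 2 * ∑ k, y k ^ 2 + c ^ 2 * ∑ k, z k ^ 2 + 2 * (a * b) * ∑ k, x k * y k +
      2 * (a * c) * ∑ k, x k * z k + 2 * (b * c) * ∑ k, y k * z k := by
  simp only [Fin.sum_univ_three]
  ring

theorem k6_crs (v w : Fin 3 → ℝ) : ∑ k, crs v w k ^ 2 = (∑ k, v k ^ 2) * (∑ k, w k ^ 2) - (∑ k, v k * w k) ^ 2 := by
  simp only [Fin.sum_univ_three, crs]
  simp only [show (0 : Fin 3) + 1 = 1 from rfl, show (0 : Fin 3) + 2 = 2 from rfl, show (1 : Fin 3) + 1 = 2 from rfl,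
    show (1 : Fin 3) + 2 = 0 from rfl, show (2 : Fin 3) + 1 = 0 from rfl, show (2 : Fin 3) + 2 = 1 from rfl]
  ring

theorem k6_dist (n n' : S2) : ∑ k, ((n : E3) k - (n' : E3) k) ^ 2 = dist n n' ^ 2 := by
  rw [Subtype.dist_eq, EuclideanSpace.dist_eq, Real.sq_sqrt (Finset.sum_nonneg fun _ _ => sq_nonneg _)]
  simp [Real.dist_eq, sq_abs]

theorem k6_unit (n : S2) : ∑ k, (n : E3) k ^ 2 = 1 := by
  rw [Fin.sum_univ_three]
  exact sq_S2 n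

theorem k6_nn (n n' : S2) : ∑ k, (n : E3) k * (n' : E3) k = 1 - dist n n' ^ 2 / 2 := by
  rw [← k6_dist]
  have h1 := k6_unit n
  have h2 := k6_unit n'
  simp only [Fin.sum_univ_three] at *
  linear_combination (1 / 2) * h1 + (1 / 2) * h2

/-- `t - t'` is at most the distance -/
theorem k6_tt (n n' m : S2) : ((∑ k, (n : E3) k * (m : E3) k) - ∑ k, (n' : E3) k * (m : E3) k) ^ 2 ≤ dist n n' ^ 2 := by
  rw [← k6_dist, ← Finset.sum_sub_distrib]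
  have h := Finset.sum_mul_sq_le_sq_mul_sq Finset.univ (fun k => (n : E3) k - (n' : E3) k) (fun k => (m : E3) k)
  rw [k6_unit m, mul_one] at h
  refine le_trans (le_of_eq ?_) h
  congr 1
  exact Finset.sum_congr rfl fun k _ => by ring

/-- length of the kernels -/
theorem k6_ka2 {ε : ℝ} (hε : 0 < ε) (n m : S2) : ∑ k, ka ε n m k ^ 2 ≤ 2 / kd ε n m := by
  have hD := kd_pos hε n m
  have ht := dot_mem n m
  have hk := kd_S2 ε n m
  obtain ⟨t, hte⟩ : ∃ t, t = ∑ i, (n : E3) i * (m : E3) i := ⟨_, rfl⟩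
  rw [← hte] at ht hk
  have e : ∑ k, ka ε n m k ^ 2 = (1 - t ^ 2) / kd ε n m ^ 2 := by
    have h1 : ∀ k, ka ε n m k ^ 2 = ((m : E3) k - t * (n : E3) k) ^ 2 / kd ε n m ^ 2 := by
      intro k
      unfold ka
      rw [← hte, div_pow]
    rw [Finset.sum_congr rfl fun k _ => h1 k, ← Finset.sum_div]
    congr 1
    have h2 := sq_S2 n
    have h3 := sq_S2 m
    simp only [Fin.sum_univ_three] at hte ⊢
    rw [hte]
    linear_combination h3 + (((n : E3) 0 * (m : E3) 0 + (n : E3) 1 * (m : E3) 1 + (n : E3) 2 * (m : E3) 2) ^ 2) * h2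
  rw [e, div_le_div_iff₀ (by positivity) hD]
  have h1 : 1 - t ^ 2 ≤ 2 * kd ε n m := by
    rw [hk]
    nlinarith [ht.1, ht.2]
  calc (1 - t ^ 2) * kd ε n m ≤ (2 * kd ε n m) * kd ε n m := mul_le_mul_of_nonneg_right h1 hD.le
    _ = 2 * kd ε n m ^ 2 := by ring

theorem k6_kab (ε : ℝ) (n m : S2) : ∑ k, ka ε n m k * kb ε n m k = 0 := by
  have h1 : ∀ k, ka ε n m k * kb ε n m k = ((m : E3) k - (∑ i, (n : E3) i * (m : E3) i) * (n : E3) k) *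
      crs (fun i => (n : E3) i) (fun i => (m : E3) i) k / kd ε n m ^ 2 := by
    intro k
    unfold ka kb
    rw [div_mul_div_comm, sq]
  rw [Finset.sum_congr rfl fun k _ => h1 k, ← Finset.sum_div]
  have h2 : ∑ k, ((m : E3) k - (∑ i, (n : E3) i * (m : E3) i) * (n : E3) k) *
      crs (fun i => (n : E3) i) (fun i => (m : E3) i) k = 0 := by
    simp only [Fin.sum_univ_three, crs]
    simp only [show (0 : Fin 3) + 1 = 1 from rfl, show (0 : Fin 3) + 2 = 2 from rfl, show (1 : Fin 3) + 1 = 2 from rfl,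
      show (1 : Fin 3) + 2 = 0 from rfl, show (2 : Fin 3) + 1 = 0 from rfl, show (2 : Fin 3) + 2 = 1 from rfl]
    ring
  rw [h2, zero_div]

theorem k6_kb2 {ε : ℝ} (hε : 0 < ε) (n m : S2) : ∑ k, kb ε n m k ^ 2 ≤ 2 / kd ε n m := by
  have hD := kd_pos hε n m
  have ht := dot_mem n m
  have hk := kd_S2 ε n m
  obtain ⟨t, hte⟩ : ∃ t, t = ∑ i, (n : E3) i * (m : E3) i := ⟨_, rfl⟩
  rw [← hte] at ht hk
  have e : ∑ k, kb ε n m k ^ 2 = (1 - t ^ 2) / kd ε n m ^ 2 := by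
    have h1 : ∀ k, kb ε n m k ^ 2 = crs (fun i => (n : E3) i) (fun i => (m : E3) i) k ^ 2 / kd ε n m ^ 2 := by
      intro k
      unfold kb
      rw [div_pow]
    rw [Finset.sum_congr rfl fun k _ => h1 k, ← Finset.sum_div, k6_crs, k6_unit, k6_unit, ← hte]
    ring
  rw [e, div_le_div_iff₀ (by positivity) hD]
  have h1 : 1 - t ^ 2 ≤ 2 * kd ε n m := by
    rw [hk]
    nlinarith [ht.1, ht.2]
  calc (1 - t ^ 2) * kd ε n m ≤ (2 * kd ε n m) * kd ε n m := mul_le_mul_of_nonneg_right h1 hD.le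
    _ = 2 * kd ε n m ^ 2 := by ring

theorem k6_K2 {ε : ℝ} (hε : 0 < ε) {g1 g2 : S2 → ℝ} {M : ℝ} (hM : ∀ m, g1 m ^ 2 + g2 m ^ 2 ≤ M ^ 2) (n m : S2) :
    ∑ k, k6K ε g1 g2 n m k ^ 2 ≤ M ^ 2 * (2 / kd ε n m) := by
  have e : ∑ k, k6K ε g1 g2 n m k ^ 2 = g1 m ^ 2 * ∑ k, ka ε n m k ^ 2 + g2 m ^ 2 * ∑ k, kb ε n m k ^ 2 := by
    have h := k6_kab ε n m
    unfold k6K
    simp only [Fin.sum_univ_three] at h ⊢
    linear_combination (2 * g1 m * g2 m) * h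
  have hD := kd_pos hε n m
  have h1 : g1 m ^ 2 * ∑ k, ka ε n m k ^ 2 ≤ g1 m ^ 2 * (2 / kd ε n m) :=
    mul_le_mul_of_nonneg_left (k6_ka2 hε n m) (sq_nonneg _)
  have h2 : g2 m ^ 2 * ∑ k, kb ε n m k ^ 2 ≤ g2 m ^ 2 * (2 / kd ε n m) :=
    mul_le_mul_of_nonneg_left (k6_kb2 hε n m) (sq_nonneg _)
  have h3 : (g1 m ^ 2 + g2 m ^ 2) * (2 / kd ε n m) ≤ M ^ 2 * (2 / kd ε n m) :=
    mul_le_mul_of_nonneg_right (hM m) (by positivity)
  rw [e]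
  linarith

/-- difference of the kernels `ka` -/
theorem k6_dka {ε : ℝ} (hε : 0 < ε) (n n' m : S2) :
    ∑ k, (ka ε n m k - ka ε n' m k) ^ 2 ≤ 3 * dist n n' ^ 2 / (kd ε n m * kd ε n' m) := by
  have hD := kd_pos hε n m
  have hD' := kd_pos hε n' m
  have ht := dot_mem n m
  have ht' := dot_mem n' m
  have hk := kd_S2 ε n m
  have hk' := kd_S2 ε n' m
  have htt := k6_tt n n' m
  have hnn := k6_nn n n'
  obtain ⟨t, hte⟩ : ∃ t, t = ∑ i, (n : E3) i * (m : E3) i := ⟨_, rfl⟩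
  obtain ⟨t', hte'⟩ : ∃ t', t' = ∑ i, (n' : E3) i * (m : E3) i := ⟨_, rfl⟩
  obtain ⟨D, hDe⟩ : ∃ D, D = kd ε n m := ⟨_, rfl⟩
  obtain ⟨D', hDe'⟩ : ∃ D', D' = kd ε n' m := ⟨_, rfl⟩
  obtain ⟨d, hd⟩ : ∃ d, d = dist n n' := ⟨_, rfl⟩
  rw [← hte, ← hDe] at hk
  rw [← hte', ← hDe'] at hk'
  rw [← hte, ← hte', ← hd] at htt
  rw [← hd] at hnn
  rw [← hte] at ht
  rw [← hte'] at ht'
  rw [← hDe] at hD
  rw [← hDe'] at hD'
  rw [← hDe, ← hDe', ← hd]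
  have h1 : ∀ k, (ka ε n m k - ka ε n' m k) ^ 2 =
      ((1 / D - 1 / D') * (m : E3) k + (-(t / D)) * (n : E3) k + (t' / D') * (n' : E3) k) ^ 2 := by
    intro k
    unfold ka
    rw [← hte, ← hte', ← hDe, ← hDe']
    ring
  have c1 : ∑ k, (m : E3) k * (n : E3) k = t := by
    rw [hte]; exact Finset.sum_congr rfl fun k _ => mul_comm _ _
  have c2 : ∑ k, (m : E3) k * (n' : E3) k = t' := by
    rw [hte']; exact Finset.sum_congr rfl fun k _ => mul_comm _ _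
  rw [Finset.sum_congr rfl fun k _ => h1 k, k6_lin3, k6_unit, k6_unit, k6_unit, c1, c2, hnn]
  have e : (1 / D - 1 / D') ^ 2 * 1 + (-(t / D)) ^ 2 * 1 + (t' / D') ^ 2 * 1 + 2 * ((1 / D - 1 / D') * -(t / D)) * t +
      2 * ((1 / D - 1 / D') * (t' / D')) * t' + 2 * (-(t / D) * (t' / D')) * (1 - d ^ 2 / 2) =
      ((D - D') ^ 2 * (2 * (D * D') - ε * (2 + ε)) / (D * D') + t * t' * d ^ 2) / (D * D') := by
    have e1 : t = ε + 1 - D := by linarith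
    have e2 : t' = ε + 1 - D' := by linarith
    rw [e1, e2]
    field_simp
    ring
  rw [e]
  refine div_le_div_of_nonneg_right ?_ (by positivity)
  have b1 : (D - D') ^ 2 ≤ d ^ 2 := by
    have : (D - D') ^ 2 = (t - t') ^ 2 := by rw [hk, hk']; ring
    rw [this]
    exact htt
  have b2 : (D - D') ^ 2 * (2 * (D * D') - ε * (2 + ε)) / (D * D') ≤ 2 * d ^ 2 := by
    rw [div_le_iff₀ (by positivity)]
    have b3 : (D - D') ^ 2 * (2 * (D * D') - ε * (2 + ε)) ≤ (D - D') ^ 2 * (2 * (D * D')) :=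
      mul_le_mul_of_nonneg_left (by nlinarith) (sq_nonneg _)
    have b4 : (D - D') ^ 2 * (2 * (D * D')) ≤ d ^ 2 * (2 * (D * D')) :=
      mul_le_mul_of_nonneg_right b1 (by positivity)
    linarith
  have b5 : t * t' * d ^ 2 ≤ 1 * d ^ 2 := by
    refine mul_le_mul_of_nonneg_right ?_ (sq_nonneg _)
    nlinarith [ht.1, ht.2, ht'.1, ht'.2]
  linarith

/-- difference of the kernels `kb` -/
theorem k6_dkb {ε : ℝ} (hε : 0 < ε) (n n' m : S2) :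
    ∑ k, (kb ε n m k - kb ε n' m k) ^ 2 ≤ dist n n' ^ 2 / (kd ε n m * kd ε n' m) := by
  have hD := kd_pos hε n m
  have hD' := kd_pos hε n' m
  have hk := kd_S2 ε n m
  have hk' := kd_S2 ε n' m
  have hnn := k6_nn n n'
  obtain ⟨t, hte⟩ : ∃ t, t = ∑ i, (n : E3) i * (m : E3) i := ⟨_, rfl⟩
  obtain ⟨t', hte'⟩ : ∃ t', t' = ∑ i, (n' : E3) i * (m : E3) i := ⟨_, rfl⟩
  obtain ⟨D, hDe⟩ : ∃ D, D = kd ε n m := ⟨_, rfl⟩
  obtain ⟨D', hDe'⟩ : ∃ D', D' = kd ε n' m := ⟨_, rfl⟩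
  obtain ⟨d, hd⟩ : ∃ d, d = dist n n' := ⟨_, rfl⟩
  rw [← hte, ← hDe] at hk
  rw [← hte', ← hDe'] at hk'
  rw [← hd] at hnn
  rw [← hDe] at hD
  rw [← hDe'] at hD'
  rw [← hDe, ← hDe', ← hd]
  have h1 : ∀ k, (kb ε n m k - kb ε n' m k) ^ 2 =
      crs (fun i => 1 / D * (n : E3) i + (-(1 / D')) * (n' : E3) i + 0 * (n : E3) i) (fun i => (m : E3) i) k ^ 2 := by
    intro k
    unfold kb crs
    rw [← hDe, ← hDe']
    ring
  have h2 : ∑ k, (1 / D * (n : E3) k + (-(1 / D')) * (n' : E3) k + 0 * (n : E3) k) * (m : E3) k =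
      t / D - t' / D' := by
    rw [hte, hte']
    simp only [Fin.sum_univ_three]
    ring
  rw [Finset.sum_congr rfl fun k _ => h1 k, k6_crs, k6_lin3, k6_unit, k6_unit, k6_unit, h2, hnn]
  have e1 : t = ε + 1 - D := by linarith
  have e2 : t' = ε + 1 - D' := by linarith
  have e : d ^ 2 / (D * D') - ((1 / D) ^ 2 * 1 + (-(1 / D')) ^ 2 * 1 + 0 ^ 2 * 1 + 2 * (1 / D * -(1 / D')) * (1 - d ^ 2 / 2) +
      2 * (1 / D * 0) * (∑ k, (n : E3) k * (n : E3) k) + 2 * (-(1 / D') * 0) * (∑ k, (n' : E3) k * (n : E3) k)) * 1 +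
      (t / D - t' / D') ^ 2 = ε * (2 + ε) * (1 / D - 1 / D') ^ 2 := by
    rw [e1, e2]
    field_simp
    ring
  have h3 : 0 ≤ ε * (2 + ε) * (1 / D - 1 / D') ^ 2 := by positivity
  linarith

theorem k6_dK1 {ε : ℝ} (hε : 0 < ε) {g1 g2 : S2 → ℝ} {M : ℝ} (hM : ∀ m, g1 m ^ 2 + g2 m ^ 2 ≤ M ^ 2) (n n' m : S2) :
    ∑ k, (k6K ε g1 g2 n m k - k6K ε g1 g2 n' m k) ^ 2 ≤ 4 * M ^ 2 * dist n n' ^ 2 / (kd ε n m * kd ε n' m) := by
  have h1 : ∀ k, (k6K ε g1 g2 n m k - k6K ε g1 g2 n' m k) ^ 2 ≤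
      (g1 m ^ 2 + g2 m ^ 2) * ((ka ε n m k - ka ε n' m k) ^ 2 + (kb ε n m k - kb ε n' m k) ^ 2) := by
    intro k
    unfold k6K
    nlinarith [sq_nonneg (g1 m * (kb ε n m k - kb ε n' m k) - g2 m * (ka ε n m k - ka ε n' m k))]
  have hD := kd_pos hε n m
  have hD' := kd_pos hε n' m
  calc ∑ k, (k6K ε g1 g2 n m k - k6K ε g1 g2 n' m k) ^ 2
      ≤ ∑ k, (g1 m ^ 2 + g2 m ^ 2) * ((ka ε n m k - ka ε n' m k) ^ 2 + (kb ε n m k - kb ε n' m k) ^ 2) :=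
        Finset.sum_le_sum fun k _ => h1 k
    _ = (g1 m ^ 2 + g2 m ^ 2) * (∑ k, (ka ε n m k - ka ε n' m k) ^ 2 + ∑ k, (kb ε n m k - kb ε n' m k) ^ 2) := by
        rw [← Finset.mul_sum, Finset.sum_add_distrib]
    _ ≤ M ^ 2 * (3 * dist n n' ^ 2 / (kd ε n m * kd ε n' m) + dist n n' ^ 2 / (kd ε n m * kd ε n' m)) := by
        refine mul_le_mul (hM m) (add_le_add (k6_dka hε n n' m) (k6_dkb hε n n' m)) ?_ (sq_nonneg _)
        positivity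
    _ = 4 * M ^ 2 * dist n n' ^ 2 / (kd ε n m * kd ε n' m) := by ring

theorem k6_dK2 {ε : ℝ} (hε : 0 < ε) {g1 g2 : S2 → ℝ} {M : ℝ} (hM : ∀ m, g1 m ^ 2 + g2 m ^ 2 ≤ M ^ 2) (n n' m : S2) :
    ∑ k, (k6K ε g1 g2 n m k - k6K ε g1 g2 n' m k) ^ 2 ≤ 4 * M ^ 2 * (1 / kd ε n m + 1 / kd ε n' m) := by
  have h1 : ∀ k, (k6K ε g1 g2 n m k - k6K ε g1 g2 n' m k) ^ 2 ≤
      2 * k6K ε g1 g2 n m k ^ 2 + 2 * k6K ε g1 g2 n' m k ^ 2 := by
    intro k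
    nlinarith [sq_nonneg (k6K ε g1 g2 n m k + k6K ε g1 g2 n' m k)]
  calc ∑ k, (k6K ε g1 g2 n m k - k6K ε g1 g2 n' m k) ^ 2
      ≤ ∑ k, (2 * k6K ε g1 g2 n m k ^ 2 + 2 * k6K ε g1 g2 n' m k ^ 2) := Finset.sum_le_sum fun k _ => h1 k
    _ = 2 * ∑ k, k6K ε g1 g2 n m k ^ 2 + 2 * ∑ k, k6K ε g1 g2 n' m k ^ 2 := by
        rw [Finset.sum_add_distrib, ← Finset.mul_sum, ← Finset.mul_sum]
    _ ≤ 2 * (M ^ 2 * (2 / kd ε n m)) + 2 * (M ^ 2 * (2 / kd ε n' m)) := by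
        have a1 := k6_K2 hε hM n m
        have a2 := k6_K2 hε hM n' m
        linarith
    _ = 4 * M ^ 2 * (1 / kd ε n m + 1 / kd ε n' m) := by ring

theorem k6_q4 {D : ℝ} (hD : 0 < D) : (D ^ (-(3 / 4 : ℝ))) ^ 4 = (1 / D) ^ 3 := by
  rw [← Real.rpow_natCast, ← Real.rpow_mul hD.le]
  have e : -(3 / 4 : ℝ) * ((4 : ℕ) : ℝ) = -((3 : ℕ) : ℝ) := by norm_num
  rw [e, Real.rpow_neg hD.le, Real.rpow_natCast, one_div, inv_pow]

/-- the pointwise Hoelder bound -/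
theorem k6_dK {ε : ℝ} (hε : 0 < ε) {g1 g2 : S2 → ℝ} {M : ℝ} (hM : ∀ m, g1 m ^ 2 + g2 m ^ 2 ≤ M ^ 2) (hM0 : 0 ≤ M)
    (n n' m : S2) : vnrm (fun k => k6K ε g1 g2 n m k - k6K ε g1 g2 n' m k) ≤
      2 * M * Real.sqrt (dist n n') * (kd ε n m ^ (-(3 / 4 : ℝ)) + kd ε n' m ^ (-(3 / 4 : ℝ))) := by
  have hD := kd_pos hε n m
  have hD' := kd_pos hε n' m
  have b1 := k6_dK1 hε hM n n' m
  have b2 := k6_dK2 hε hM n n' m
  have q4 := k6_q4 hD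
  have q4' := k6_q4 hD'
  have hd : 0 ≤ dist n n' := dist_nonneg
  have hqs := Real.sq_sqrt hd
  have hs := Real.sqrt_nonneg (dist n n')
  obtain ⟨p, hp⟩ : ∃ p, p = 1 / kd ε n m := ⟨_, rfl⟩
  obtain ⟨p', hp'⟩ : ∃ p', p' = 1 / kd ε n' m := ⟨_, rfl⟩
  obtain ⟨q, hq⟩ : ∃ q, q = kd ε n m ^ (-(3 / 4 : ℝ)) := ⟨_, rfl⟩
  obtain ⟨q', hq'⟩ : ∃ q', q' = kd ε n' m ^ (-(3 / 4 : ℝ)) := ⟨_, rfl⟩
  have hq0 : 0 ≤ q := by rw [hq]; exact Real.rpow_nonneg hD.le _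
  have hq0' : 0 ≤ q' := by rw [hq']; exact Real.rpow_nonneg hD'.le _
  have hp0 : 0 ≤ p := by rw [hp]; positivity
  have hp0' : 0 ≤ p' := by rw [hp']; positivity
  have e1 : 4 * M ^ 2 * dist n n' ^ 2 / (kd ε n m * kd ε n' m) = 4 * M ^ 2 * dist n n' ^ 2 * (p * p') := by
    rw [hp, hp']
    field_simp
  rw [e1] at b1
  rw [← hp, ← hp'] at b2
  rw [← hq, ← hp] at q4
  rw [← hq', ← hp'] at q4'
  rw [← hq, ← hq']
  obtain ⟨X, hX⟩ : ∃ X, X = ∑ k, (k6K ε g1 g2 n m k - k6K ε g1 g2 n' m k) ^ 2 := ⟨_, rfl⟩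
  have hX0 : 0 ≤ X := by rw [hX]; exact Finset.sum_nonneg fun _ _ => sq_nonneg _
  rw [← hX] at b1 b2
  unfold vnrm
  rw [← hX]
  obtain ⟨d, hdd⟩ : ∃ d, d = dist n n' := ⟨_, rfl⟩
  obtain ⟨s, hss⟩ : ∃ s, s = Real.sqrt (dist n n') := ⟨_, rfl⟩
  rw [← hdd] at b1 hd
  rw [← hss, ← hdd] at hqs
  rw [← hss] at hs ⊢
  -- X^2 ≤ 16 M^4 d^2 (q + q')^4
  have c1 : X ^ 2 ≤ (4 * M ^ 2 * d * (q + q') ^ 2) ^ 2 := by
    have c2 : X * X ≤ (4 * M ^ 2 * d ^ 2 * (p * p')) * (4 * M ^ 2 * (p + p')) :=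
      mul_le_mul b1 b2 hX0 (by positivity)
    have c3 : p * p' * (p + p') ≤ p ^ 3 + p' ^ 3 := by nlinarith [mul_nonneg (add_nonneg hp0 hp0') (sq_nonneg (p - p'))]
    have c4 : q ^ 4 + q' ^ 4 ≤ (q + q') ^ 4 := by
      have : 0 ≤ 4 * q ^ 3 * q' + 6 * q ^ 2 * q' ^ 2 + 4 * q * q' ^ 3 := by positivity
      nlinarith
    have c5 : p * p' * (p + p') ≤ (q + q') ^ 4 := by
      rw [← q4, ← q4'] at c3
      exact c3.trans c4
    calc X ^ 2 = X * X := by ring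
      _ ≤ (4 * M ^ 2 * d ^ 2 * (p * p')) * (4 * M ^ 2 * (p + p')) := c2
      _ = 16 * M ^ 4 * d ^ 2 * (p * p' * (p + p')) := by ring
      _ ≤ 16 * M ^ 4 * d ^ 2 * (q + q') ^ 4 := mul_le_mul_of_nonneg_left c5 (by positivity)
      _ = (4 * M ^ 2 * d * (q + q') ^ 2) ^ 2 := by ring
  have c6 : X ≤ 4 * M ^ 2 * d * (q + q') ^ 2 := le_of_sq_le_sq c1 (by positivity)
  rw [Real.sqrt_le_left (by positivity)]
  calc X ≤ 4 * M ^ 2 * d * (q + q') ^ 2 := c6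
    _ = 4 * M ^ 2 * s ^ 2 * (q + q') ^ 2 := by rw [hqs]
    _ = (2 * M * s * (q + q')) ^ 2 := by ring

theorem k6_TE (ε : ℝ) (g1 g2 : S2 → ℝ) (n : S2) (k : Fin 3) :
    TE ε g1 g2 n k = -(1 / (4 * Real.pi)) * ∫ m : S2, k6K ε g1 g2 n m k ∂sm := rfl

theorem k6_scale (c : ℝ) (v : Fin 3 → ℝ) : vnrm (fun k => c * v k) = |c| * vnrm v := by
  unfold vnrm
  rw [← Real.sqrt_sq_eq_abs, ← Real.sqrt_mul (sq_nonneg c)]
  congr 1
  rw [Finset.mul_sum]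
  exact Finset.sum_congr rfl fun k _ => by ring

theorem k6_rpow_cont {ε : ℝ} (hε : 0 < ε) (n : S2) (r : ℝ) : Continuous fun m : S2 => kd ε n m ^ r :=
  (k6_kd_cont ε n).rpow_const fun m => Or.inl (kd_pos hε _ _).ne'

theorem TE_bd {ε : ℝ} (hε : 0 < ε) (hε1 : ε ≤ 1) {g1 g2 : S2 → ℝ} (h1 : Continuous g1) (h2 : Continuous g2) {M : ℝ}
    (hM : ∀ m, g1 m ^ 2 + g2 m ^ 2 ≤ M ^ 2) (hM0 : 0 ≤ M) (n : S2) : vnrm (TE ε g1 g2 n) ≤ 3 * M := by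
  have e : (TE ε g1 g2 n) = fun k => -(1 / (4 * Real.pi)) * ∫ m : S2, k6K ε g1 g2 n m k ∂sm := rfl
  rw [e, k6_scale (-(1 / (4 * Real.pi))) (fun k => ∫ m : S2, k6K ε g1 g2 n m k ∂sm)]
  have hpi := Real.pi_pos
  rw [abs_neg, abs_of_pos (by positivity : 0 < 1 / (4 * Real.pi))]
  have hs2 : Real.sqrt 2 ^ 2 = 2 := Real.sq_sqrt (by norm_num)
  have h3 : vnrm (fun k => ∫ m : S2, k6K ε g1 g2 n m k ∂sm) ≤
      ∫ m : S2, M * Real.sqrt 2 * kd ε n m ^ (-(1 / 2 : ℝ)) ∂sm := by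
    refine k6_int_le (F := fun m k => k6K ε g1 g2 n m k) (fun k => k6K_cont hε h1 h2 n k)
      (continuous_const.mul (k6_rpow_cont hε n _)) (fun m => ?_)
    have hD := kd_pos hε n m
    unfold vnrm
    have hr := Real.rpow_nonneg hD.le (-(1 / 2 : ℝ))
    rw [Real.sqrt_le_left (by positivity)]
    refine (k6_K2 hε hM n m).trans (le_of_eq ?_)
    have e2 : (kd ε n m ^ (-(1 / 2 : ℝ))) ^ 2 = 1 / kd ε n m := by
      rw [← Real.rpow_natCast, ← Real.rpow_mul hD.le]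
      have e3 : -(1 / 2 : ℝ) * ((2 : ℕ) : ℝ) = -1 := by norm_num
      rw [e3, Real.rpow_neg_one, one_div]
    rw [mul_pow, mul_pow, e2, hs2]
    ring
  rw [integral_const_mul] at h3
  have h4 := k6_int hε hε1 (r := 1 / 2) (by norm_num) n
  have h5 : (3 : ℝ) ^ (1 - 1 / 2 : ℝ) = Real.sqrt 3 := by
    rw [Real.sqrt_eq_rpow]
    norm_num
  rw [h5] at h4
  have h6 : Real.sqrt 2 * Real.sqrt 3 ≤ 5 / 2 := by
    rw [← Real.sqrt_mul (by norm_num), Real.sqrt_le_left (by norm_num)]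
    norm_num
  have h7 : vnrm (fun k => ∫ m : S2, k6K ε g1 g2 n m k ∂sm) ≤ M * Real.sqrt 2 * (2 * Real.pi * (Real.sqrt 3 / (1 - 1 / 2))) :=
    h3.trans (mul_le_mul_of_nonneg_left h4 (by positivity))
  calc 1 / (4 * Real.pi) * vnrm (fun k => ∫ m : S2, k6K ε g1 g2 n m k ∂sm)
      ≤ 1 / (4 * Real.pi) * (M * Real.sqrt 2 * (2 * Real.pi * (Real.sqrt 3 / (1 - 1 / 2)))) :=
        mul_le_mul_of_nonneg_left h7 (by positivity)
    _ = M * (Real.sqrt 2 * Real.sqrt 3) := by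
        field_simp
        norm_num
        ring
    _ ≤ M * (5 / 2) := mul_le_mul_of_nonneg_left h6 hM0
    _ ≤ 3 * M := by linarith

theorem TE_hold {ε : ℝ} (hε : 0 < ε) (hε1 : ε ≤ 1) {g1 g2 : S2 → ℝ} (h1 : Continuous g1) (h2 : Continuous g2) {M : ℝ}
    (hM : ∀ m, g1 m ^ 2 + g2 m ^ 2 ≤ M ^ 2) (hM0 : 0 ≤ M) (n n' : S2) :
    vnrm (fun k => TE ε g1 g2 n k - TE ε g1 g2 n' k) ≤ 100 * M * Real.sqrt (dist n n') := by
  have hpi := Real.pi_pos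
  have e : (fun k => TE ε g1 g2 n k - TE ε g1 g2 n' k) =
      fun k => -(1 / (4 * Real.pi)) * ∫ m : S2, (k6K ε g1 g2 n m k - k6K ε g1 g2 n' m k) ∂sm := by
    funext k
    rw [k6_TE, k6_TE, integral_sub (int_S2 (k6K_cont hε h1 h2 n k)) (int_S2 (k6K_cont hε h1 h2 n' k))]
    ring
  rw [e, k6_scale (-(1 / (4 * Real.pi))) (fun k => ∫ m : S2, (k6K ε g1 g2 n m k - k6K ε g1 g2 n' m k) ∂sm)]
  rw [abs_neg, abs_of_pos (by positivity : 0 < 1 / (4 * Real.pi))]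
  have h3 : vnrm (fun k => ∫ m : S2, (k6K ε g1 g2 n m k - k6K ε g1 g2 n' m k) ∂sm) ≤
      ∫ m : S2, 2 * M * Real.sqrt (dist n n') * (kd ε n m ^ (-(3 / 4 : ℝ)) + kd ε n' m ^ (-(3 / 4 : ℝ))) ∂sm := by
    refine k6_int_le (F := fun m k => k6K ε g1 g2 n m k - k6K ε g1 g2 n' m k)
      (fun k => (k6K_cont hε h1 h2 n k).sub (k6K_cont hε h1 h2 n' k))
      (continuous_const.mul ((k6_rpow_cont hε n _).add (k6_rpow_cont hε n' _))) (fun m => ?_)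
    exact k6_dK hε hM hM0 n n' m
  rw [integral_const_mul, integral_add (int_S2 (k6_rpow_cont hε n _)) (int_S2 (k6_rpow_cont hε n' _))] at h3
  have h4 := k6_int hε hε1 (r := 3 / 4) (by norm_num) n
  have h4' := k6_int hε hε1 (r := 3 / 4) (by norm_num) n'
  have h5 : (3 : ℝ) ^ (1 - 3 / 4 : ℝ) ≤ 4 / 3 := by
    have h6 : (3 : ℝ) ^ (1 - 3 / 4 : ℝ) ≤ ((4 / 3 : ℝ) ^ (4 : ℕ)) ^ (1 - 3 / 4 : ℝ) :=
      Real.rpow_le_rpow (by norm_num) (by norm_num) (by norm_num)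
    refine h6.trans (le_of_eq ?_)
    rw [← Real.rpow_natCast, ← Real.rpow_mul (by norm_num)]
    norm_num
  have h8 : ∫ m : S2, kd ε n m ^ (-(3 / 4 : ℝ)) ∂sm + ∫ m : S2, kd ε n' m ^ (-(3 / 4 : ℝ)) ∂sm ≤ 24 * Real.pi := by
    have h9 : 2 * Real.pi * ((3 : ℝ) ^ (1 - 3 / 4 : ℝ) / (1 - 3 / 4)) ≤ 2 * Real.pi * ((4 / 3) / (1 - 3 / 4)) := by
      refine mul_le_mul_of_nonneg_left ?_ (by positivity)
      exact div_le_div_of_nonneg_right h5 (by norm_num)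
    have h10 : 2 * Real.pi * ((4 / 3 : ℝ) / (1 - 3 / 4)) ≤ 12 * Real.pi := by
      norm_num
      nlinarith
    linarith
  have hs := Real.sqrt_nonneg (dist n n')
  have hms : 0 ≤ M * Real.sqrt (dist n n') := mul_nonneg hM0 hs
  calc 1 / (4 * Real.pi) * vnrm (fun k => ∫ m : S2, (k6K ε g1 g2 n m k - k6K ε g1 g2 n' m k) ∂sm)
      ≤ 1 / (4 * Real.pi) * (2 * M * Real.sqrt (dist n n') * (24 * Real.pi)) := by
        refine mul_le_mul_of_nonneg_left (h3.trans ?_) (by positivity)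
        exact mul_le_mul_of_nonneg_left h8 (by positivity)
    _ = 12 * (M * Real.sqrt (dist n n')) := by
        field_simp
        ring
    _ ≤ 100 * M * Real.sqrt (dist n n') := by linarith

end NullS
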