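import Pool.Agent.Lib.H17S.K.K4
import Pool.Agent.Lib.H17S.K.K3

set_option autoImplicit false

/-!
Chunk K7 (M). `PE` is a mean with a probability kernel, which approximates the identity and does not increase Lipschitz constants.
Proof. `PE_one`: `hat_box`: `ε (2 + ε)/(4π) 2π ∫_{-1}^1 (1 + ε - t)^(-2) dt = (ε (2 + ε)/2) (1/ε - 1/(2 + ε)) = 1` (primitive `1/(1 + ε - t)`; `kd_S2`). `PE_mono`, `PE_sub`: monotonicity and linearity of the integral (the kernel is positive and continuous).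
`PE_near`: `|PE g n - g n| = |PE (g - g n) n| <= PE (η + C |. - n|) (n)`, and `|m - n| <= sqrt (2 kd)`: `(ε (2 + ε)/4π) ∫ sqrt (2 kd)/kd² dm = (ε (2 + ε)/2) sqrt 2 ∫_{-1}^1 (1 + ε - t)^(-3/2) dt <= (ε (2 + ε)/2) sqrt 2 * 2 ε^(-1/2) <= 3 sqrt 2 sqrt ε <= 5 sqrt ε`
(primitive `2 (1 + ε - t)^(-1/2)`).
`PE_lip`: rotation invariance: for a rotation `R = rt j θ` of the sphere `PE g (R n) = PE (g ∘ R) n` (`PenroseSph.int_sphMap` for `PenroseSph.rot`; `kd ε (R n) (R m) = kd ε n m`, as `R` is an isometry: `kd_norm`), so `|PE g (R n) - PE g n| = |PE (g ∘ R - g) n| <= Λ sup |R m - m| <= Λ |θ|`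
(`|rt j θ m - m|² = 2 (1 - cos θ) (m_{j+1}² + m_{j+2}²) <= θ²`, `rotLin_apply`); the derivative at `θ = 0` is `rl j (PE ε g) n` (`NullQ.hr_val`, `PE_smooth`), so it is at most `Λ` in absolute value.
-/

open MeasureTheory Filter Topology Set
open scoped ContDiff

namespace NullS

open NullPen (E3 S2 sm)
open NullU (rl crs vnrm)
open NullQ (rt HR ax_ne rt_zero rt_cont hr_val)

theorem k7_kdc {ε : ℝ} (n : E3) : Continuous (fun m : S2 => kd ε n m) :=
  (kd_smooth ε).continuous.comp (f := fun m : S2 => (n, (m : E3))) (by fun_prop)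

theorem k7_ker {ε : ℝ} (hε : 0 < ε) (n : E3) : Continuous (fun m : S2 => 1 / kd ε n m ^ 2) := by
  refine Continuous.div continuous_const ((k7_kdc n).pow 2) fun m => ?_
  exact pow_ne_zero 2 (kd_pos hε n m).ne'

theorem k7_int {ε : ℝ} (hε : 0 < ε) {g : S2 → ℝ} (cg : Continuous g) (n : S2) :
    Integrable (fun m : S2 => g m * (1 / kd ε n m ^ 2)) sm := int_S2 (cg.mul (k7_ker hε n))

theorem k7_add {ε : ℝ} (hε : 0 < ε) {g h : S2 → ℝ} (cg : Continuous g) (ch : Continuous h) (n : S2) :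
    PE ε (fun m => g m + h m) n = PE ε g n + PE ε h n := by
  unfold PE
  rw [← mul_add, ← integral_add (k7_int hε cg n) (k7_int hε ch n)]
  congr 2
  funext m
  ring

theorem k7_smul {ε : ℝ} (c : ℝ) (g : S2 → ℝ) (n : S2) :
    PE ε (fun m => c * g m) n = c * PE ε g n := by
  unfold PE
  have h : (∫ m : S2, c * g m * (1 / kd ε n m ^ 2) ∂sm) = c * ∫ m : S2, g m * (1 / kd ε n m ^ 2) ∂sm := by
    rw [← integral_const_mul]
    congr 1
    funext m
    ring
  rw [h]
  ring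

theorem k7_box {ε : ℝ} {F : ℝ → ℝ} (n : S2) (hF : ContinuousOn F (Icc ε (2 + ε))) :
    ∫ m : S2, F (kd ε n m) ∂sm = 2 * Real.pi * ∫ t in (-1 : ℝ)..1, F (ε + 1 - t) := by
  rw [← hat_box (F := fun t => F (ε + 1 - t)) ?_ n]
  · congr 1
    funext m
    rw [kd_S2]
  · refine hF.comp (by fun_prop) ?_
    intro t ht
    simp only [mem_Icc] at ht ⊢
    constructor <;> linarith [ht.1, ht.2]

theorem PE_const {ε : ℝ} (hε : 0 < ε) (c : ℝ) (n : S2) : PE ε (fun _ => c) n = c := by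
  have h0 : PE ε (fun _ => c) n = c * (ε * (2 + ε) / (4 * Real.pi) * ∫ m : S2, 1 / kd ε n m ^ 2 ∂sm) := by
    unfold PE
    rw [integral_const_mul]
    ring
  have h1 : ∫ m : S2, 1 / kd ε n m ^ 2 ∂sm = 2 * Real.pi * ∫ t in (-1 : ℝ)..1, 1 / (ε + 1 - t) ^ 2 := by
    refine k7_box (F := fun s => 1 / s ^ 2) n ?_
    refine ContinuousOn.div continuousOn_const (by fun_prop) ?_
    intro s hs
    have : 0 < s := hε.trans_le hs.1
    positivity
  have h2 : ∫ t in (-1 : ℝ)..1, 1 / (ε + 1 - t) ^ 2 = 1 / ε - 1 / (2 + ε) := by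
    have key := intervalIntegral.integral_eq_sub_of_hasDerivAt (a := (-1 : ℝ)) (b := 1)
      (f := fun t => (ε + 1 - t)⁻¹) (f' := fun t => 1 / (ε + 1 - t) ^ 2) ?_ ?_
    · rw [key]
      have e1 : ε + 1 - (1 : ℝ) = ε := by ring
      have e2 : ε + 1 - (-1 : ℝ) = 2 + ε := by ring
      simp only [e1, e2, one_div]
    · intro t ht
      rw [uIcc_of_le (by norm_num)] at ht
      have hp : 0 < ε + 1 - t := by linarith [ht.2]
      have h3 : HasDerivAt (fun t : ℝ => ε + 1 - t) (-1) t := (hasDerivAt_id t).const_sub (ε + 1)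
      have h4 := h3.fun_inv hp.ne'
      exact h4.congr_deriv (by ring)
    · apply ContinuousOn.intervalIntegrable
      rw [uIcc_of_le (by norm_num)]
      refine ContinuousOn.div continuousOn_const (by fun_prop) ?_
      intro t ht
      have hp : 0 < ε + 1 - t := by linarith [ht.2]
      positivity
  rw [h0, h1, h2]
  have hpi := Real.pi_ne_zero
  have hε0 := hε.ne'
  have hε2 : (2 + ε) ≠ 0 := by positivity
  field_simp
  ring

theorem PE_sub {ε : ℝ} (hε : 0 < ε) {g h : S2 → ℝ} (cg : Continuous g) (ch : Continuous h) (n : S2) :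
    PE ε (fun m => g m - h m) n = PE ε g n - PE ε h n := by
  unfold PE
  rw [← mul_sub, ← integral_sub (k7_int hε cg n) (k7_int hε ch n)]
  congr 2
  funext m
  ring

theorem PE_mono {ε : ℝ} (hε : 0 < ε) {g h : S2 → ℝ} (cg : Continuous g) (ch : Continuous h) (hgh : ∀ m, g m ≤ h m) (n : S2) :
    PE ε g n ≤ PE ε h n := by
  unfold PE
  refine mul_le_mul_of_nonneg_left ?_ (by positivity)
  refine integral_mono (int_S2 (cg.mul (k7_ker hε n))) (int_S2 (ch.mul (k7_ker hε n))) fun m => ?_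
  exact mul_le_mul_of_nonneg_right (hgh m) (by positivity)

theorem k7_abs {ε : ℝ} (hε : 0 < ε) {g h : S2 → ℝ} (cg : Continuous g) (ch : Continuous h) (hgh : ∀ m, |g m| ≤ h m) (n : S2) :
    |PE ε g n| ≤ PE ε h n := by
  rw [abs_le]
  constructor
  · have h1 := PE_mono hε (g := fun m => (-1) * h m) (h := g) (by fun_prop) cg (fun m => by linarith [(abs_le.1 (hgh m)).1]) n
    rw [k7_smul] at h1
    linarith
  · exact PE_mono hε cg ch (fun m => (abs_le.1 (hgh m)).2) n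

theorem k7_dist {ε : ℝ} (hε : 0 < ε) (n m : S2) : dist m n ≤ Real.sqrt (2 * kd ε n m) := by
  apply Real.le_sqrt_of_sq_le
  have h1 : dist m n = ‖(n : E3) - m‖ := by
    rw [Subtype.dist_eq, dist_comm, dist_eq_norm]
  rw [h1, kd_norm]
  linarith

theorem k7_root {ε : ℝ} (hε : 0 < ε) (hε1 : ε ≤ 1) (n : S2) : PE ε (fun m => dist m n) n ≤ 5 * Real.sqrt ε := by
  have c1 : Continuous (fun m : S2 => dist m n) := by fun_prop
  have c2 : Continuous (fun m : S2 => Real.sqrt (2 * kd ε n m)) := by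
    have := k7_kdc (ε := ε) (n : E3)
    fun_prop
  refine (PE_mono hε c1 c2 (fun m => k7_dist hε n m) n).trans ?_
  have h1 : ∫ m : S2, Real.sqrt (2 * kd ε n m) * (1 / kd ε n m ^ 2) ∂sm =
      2 * Real.pi * ∫ t in (-1 : ℝ)..1, Real.sqrt (2 * (ε + 1 - t)) * (1 / (ε + 1 - t) ^ 2) := by
    refine k7_box (F := fun s => Real.sqrt (2 * s) * (1 / s ^ 2)) n ?_
    refine ContinuousOn.mul (by fun_prop) ?_
    refine ContinuousOn.div continuousOn_const (by fun_prop) ?_
    intro s hs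
    have : 0 < s := hε.trans_le hs.1
    positivity
  have h2 : ∫ t in (-1 : ℝ)..1, Real.sqrt (2 * (ε + 1 - t)) * (1 / (ε + 1 - t) ^ 2) =
      2 * Real.sqrt 2 * (Real.sqrt ε)⁻¹ - 2 * Real.sqrt 2 * (Real.sqrt (2 + ε))⁻¹ := by
    have key := intervalIntegral.integral_eq_sub_of_hasDerivAt (a := (-1 : ℝ)) (b := 1)
      (f := fun t => 2 * Real.sqrt 2 * (Real.sqrt (ε + 1 - t))⁻¹) (f' := fun t => Real.sqrt (2 * (ε + 1 - t)) * (1 / (ε + 1 - t) ^ 2)) ?_ ?_
    · rw [key]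
      have e1 : ε + 1 - (1 : ℝ) = ε := by ring
      have e2 : ε + 1 - (-1 : ℝ) = 2 + ε := by ring
      simp only [e1, e2]
    · intro t ht
      rw [uIcc_of_le (by norm_num)] at ht
      have hp : 0 < ε + 1 - t := by linarith [ht.2]
      have hs : 0 < Real.sqrt (ε + 1 - t) := Real.sqrt_pos.2 hp
      have h3 : HasDerivAt (fun t : ℝ => ε + 1 - t) (-1) t := (hasDerivAt_id t).const_sub (ε + 1)
      have h4 := ((h3.sqrt hp.ne').fun_inv hs.ne').const_mul (2 * Real.sqrt 2)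
      refine h4.congr_deriv ?_
      rw [Real.sqrt_mul (by norm_num)]
      have h5 : Real.sqrt (ε + 1 - t) ^ 2 = ε + 1 - t := Real.sq_sqrt hp.le
      generalize Real.sqrt (ε + 1 - t) = s at *
      rw [← h5]
      field_simp
    · apply ContinuousOn.intervalIntegrable
      rw [uIcc_of_le (by norm_num)]
      refine ContinuousOn.mul (by fun_prop) ?_
      refine ContinuousOn.div continuousOn_const (by fun_prop) ?_
      intro t ht
      have hp : 0 < ε + 1 - t := by linarith [ht.2]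
      positivity
  unfold PE
  rw [h1, h2]
  have hs : 0 < Real.sqrt ε := Real.sqrt_pos.2 hε
  have h5 : Real.sqrt ε ^ 2 = ε := Real.sq_sqrt hε.le
  have h6 : 0 ≤ 2 * Real.sqrt 2 * (Real.sqrt (2 + ε))⁻¹ := by positivity
  have h7 : Real.sqrt 2 ≤ 3 / 2 := by
    rw [Real.sqrt_le_left (by norm_num)]
    norm_num
  have h8 : ε * (2 + ε) / (4 * Real.pi) * (2 * Real.pi * (2 * Real.sqrt 2 * (Real.sqrt ε)⁻¹ - 2 * Real.sqrt 2 * (Real.sqrt (2 + ε))⁻¹)) ≤
      ε * (2 + ε) / (4 * Real.pi) * (2 * Real.pi * (2 * Real.sqrt 2 * (Real.sqrt ε)⁻¹)) := by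
    refine mul_le_mul_of_nonneg_left (mul_le_mul_of_nonneg_left (by linarith) (by positivity)) (by positivity)
  refine h8.trans ?_
  have h9 : ε * (2 + ε) / (4 * Real.pi) * (2 * Real.pi * (2 * Real.sqrt 2 * (Real.sqrt ε)⁻¹)) = (2 + ε) * Real.sqrt 2 * Real.sqrt ε := by
    have hpi := Real.pi_ne_zero
    generalize Real.sqrt ε = s at *
    rw [← h5]
    field_simp
    ring
  rw [h9]
  refine mul_le_mul_of_nonneg_right ?_ hs.le
  have h10 : (0 : ℝ) ≤ Real.sqrt 2 := Real.sqrt_nonneg 2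
  nlinarith

theorem PE_near {ε : ℝ} (hε : 0 < ε) (hε1 : ε ≤ 1) {g : S2 → ℝ} (cg : Continuous g) {η C : ℝ} (hC : 0 ≤ C) (n : S2)
    (h : ∀ m, |g m - g n| ≤ η + C * dist m n) : |PE ε g n - g n| ≤ η + C * (5 * Real.sqrt ε) := by
  have h1 : PE ε g n - g n = PE ε (fun m => g m - g n) n := by
    rw [PE_sub hε cg (by fun_prop), PE_const hε]
  have c1 : Continuous (fun m : S2 => dist m n) := by fun_prop
  have h2 := k7_abs hε (g := fun m => g m - g n) (h := fun m => η + C * dist m n) (by fun_prop) (by fun_prop) h n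
  rw [h1]
  refine h2.trans ?_
  rw [k7_add hε (g := fun _ => η) (h := fun m => C * dist m n) (by fun_prop) (by fun_prop), PE_const hε, k7_smul]
  have h3 := mul_le_mul_of_nonneg_left (k7_root hε hε1 n) hC
  linarith

theorem k7_rtd (j : Fin 3) (θ : ℝ) (m : S2) : dist (rt j θ m) m ≤ |θ| := by
  apply abs_le_of_sq_le_sq' _ (abs_nonneg θ) |>.2
  rw [sq_abs]
  have h1 : dist (rt j θ m) m = ‖(rt j θ m : E3) - m‖ := by
    rw [Subtype.dist_eq, dist_eq_norm]
  have h2 : (rt j θ m : E3) = Pool.Agent.Lib.PenroseSph.rotLin (j + 1) (j + 2) θ m := by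
    show Pool.Agent.Lib.PenroseSph.rot (ax_ne j) θ (m : E3) = _
    rw [Pool.Agent.Lib.PenroseSph.rot_apply]
  have h3 : ‖(rt j θ m : E3) - m‖ ^ 2 = 2 * (1 - Real.cos θ) * ((m : E3) (j + 1) ^ 2 + (m : E3) (j + 2) ^ 2) := by
    rw [h2, EuclideanSpace.norm_sq_eq]
    have hs := Real.sin_sq_add_cos_sq θ
    simp only [PiLp.sub_apply, Real.norm_eq_abs, sq_abs, Pool.Agent.Lib.PenroseSph.rotLin_apply, Fin.sum_univ_three]
    have hs' : Real.sin θ ^ 2 = 1 - Real.cos θ ^ 2 := by linarith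
    generalize Real.sin θ = s at *
    generalize Real.cos θ = c at *
    fin_cases j <;> simp <;> ring_nf <;> simp only [hs'] <;> ring
  have h4 : (m : E3) (j + 1) ^ 2 + (m : E3) (j + 2) ^ 2 ≤ 1 := by
    have := sq_S2 m
    have q0 := sq_nonneg ((m : E3) 0)
    have q1 := sq_nonneg ((m : E3) 1)
    have q2 := sq_nonneg ((m : E3) 2)
    fin_cases j <;> simp <;> linarith
  have h5 := Real.one_sub_sq_div_two_le_cos (x := θ)
  have h6 := Real.cos_le_one θ
  have h7 : 0 ≤ (m : E3) (j + 1) ^ 2 + (m : E3) (j + 2) ^ 2 := by positivity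
  rw [h1, h3]
  nlinarith

theorem k7_rot {ε : ℝ} (hε : 0 < ε) {g : S2 → ℝ} (cg : Continuous g) (j : Fin 3) (θ : ℝ) (n : S2) :
    PE ε g (rt j θ n) = PE ε (fun m => g (rt j θ m)) n := by
  unfold PE
  congr 1
  have h1 := Pool.Agent.Lib.PenroseSph.int_sphMap (Pool.Agent.Lib.PenroseSph.rot (ax_ne j) θ)
    (fun m : S2 => g m * (1 / kd ε (rt j θ n) m ^ 2)) (cg.mul (k7_ker hε _))
  refine h1.symm.trans ?_
  congr 1
  funext m
  show g (rt j θ m) * (1 / kd ε (rt j θ n) (rt j θ m) ^ 2) = _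
  have h2 : kd ε (rt j θ n) (rt j θ m) = kd ε n m := by
    rw [kd_norm, kd_norm]
    have h3 : (rt j θ n : E3) - (rt j θ m : E3) = Pool.Agent.Lib.PenroseSph.rot (ax_ne j) θ ((n : E3) - m) := by
      rw [map_sub]
      rfl
    rw [h3, LinearIsometryEquiv.norm_map]
  rw [h2]

theorem k7_rtc (j : Fin 3) (θ : ℝ) : Continuous (fun m : S2 => rt j θ m) :=
  Continuous.comp (g := fun p : ℝ × S2 => rt j p.1 p.2) (f := fun n : S2 => (θ, n)) (rt_cont j) (by fun_prop)

theorem k7_lam {g : S2 → ℝ} {Λ : ℝ} (hΛ : ∀ m m', |g m - g m'| ≤ Λ * dist m m') (n : S2) : 0 ≤ Λ := by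
  have h1 := hΛ n (-n)
  have h2 : dist n (-n) = 2 := by
    rw [Subtype.dist_eq, dist_eq_norm]
    have : (n : E3) - ((-n : S2) : E3) = (2 : ℝ) • (n : E3) := by
      rw [coe_neg_sphere, sub_neg_eq_add, two_smul]
    rw [this, norm_smul]
    simp
  rw [h2] at h1
  have h3 := abs_nonneg (g n - g (-n))
  linarith

theorem PE_lip {ε : ℝ} (hε : 0 < ε) {g : S2 → ℝ} (cg : Continuous g) {Λ : ℝ} (hΛ : ∀ m m', |g m - g m'| ≤ Λ * dist m m')
    (j : Fin 3) (n : S2) : |rl j (PE ε g) n| ≤ Λ := by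
  have hL := k7_lam hΛ n
  have h1 : HasDerivAt (fun θ => PE ε g (rt j θ n)) (rl j (PE ε g) n) 0 :=
    hr_val (fun m => (PE_smooth hε cg).differentiable (by simp) _) j n
  refine h1.le_of_lip' hL (Eventually.of_forall fun θ => ?_)
  rw [rt_zero, sub_zero, Real.norm_eq_abs, Real.norm_eq_abs, k7_rot hε cg, ← PE_sub hε (g := fun m => g (rt j θ m)) (cg.comp (k7_rtc j θ)) cg]
  have h2 := k7_abs hε (g := fun m => g (rt j θ m) - g m) (h := fun _ => Λ * |θ|) ((cg.comp (k7_rtc j θ)).sub cg) (by fun_prop) (fun m => ?_) n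
  · rw [PE_const hε] at h2
    exact h2
  · exact (hΛ _ _).trans (mul_le_mul_of_nonneg_left (k7_rtd j θ m) hL)

end NullS
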