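import Pool.Agent.Lib.H17S.K.K3

set_option autoImplicit false

/-!
Chunk K8 (S/M). At a minimum of the potential.
Proof. `f = LE ε g` is smooth on `E3` (`LE_smooth`); let `n` be a point of the compact sphere where `f` is minimal. For each `j` the function `u θ = f (rt j θ n)` has a minimum at `θ = 0` and the derivative `u' θ = rl j f (rt j θ n)` (`NullQ.hr_val`, `NullQ.hr_at`);
so `rl j f n = 0`, and `u'` has at `0` the derivative `rl j (rl j f) n` (`hr_val` for `y ↦ rl j f y`, which is smooth: `NullU.TC0_rlsm` or `ContDiff.fderiv_right`), which is `>= 0` (otherwise `u' < 0` on some interval `(0, δ)` and `u` would decrease: `strictAntiOn_of_deriv_neg`; or look for a second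
derivative test in Mathlib: `isLocalMin...`; contrapositive with `isLocalMax_of_deriv_deriv_neg`: if `u'' 0 < 0`, `u' 0 = 0` then `0` is a local maximum too, so `u` is locally constant, so `u'' 0 = 0`).
`LE_rl`: `rl j f` equals `TE ε 0 g . j` on the sphere, so `TE ε 0 g n = 0`, by `LE_grad` `TE ε g 0 n = crs (TE ε 0 g n) n = 0`, and `rl j` of two smooth functions which agree on the sphere agree on the sphere (`hr_val`, `hr_uni`), so by `TE_curl` `PE ε g n - av g = Σ_j rl j (TE ε 0 g . j) n = Σ_j rl j (rl j f) n >= 0`.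
-/

open MeasureTheory Filter Topology Set
open scoped ContDiff

namespace NullS

open NullPen (E3 S2 sm)
open NullU (rl crs vnrm)
open NullQ (rt HR rt_zero hr_val hr_at hr_uni)

theorem k8_rlsm {F : E3 → ℝ} (hF : ContDiff ℝ ∞ F) (j : Fin 3) : ContDiff ℝ ∞ (fun y => rl j F y) := by
  unfold rl NShell.rotv
  have h1 : ContDiff ℝ ∞ (fun y => fderiv ℝ F y) := hF.fderiv_right (m := ∞) (by simp)
  refine h1.clm_apply ?_
  exact ((co_smooth (j + 1)).smul contDiff_const).sub ((co_smooth (j + 2)).smul contDiff_const)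

theorem k8_sec {u u' : ℝ → ℝ} {c : ℝ} (h : ∀ θ, HasDerivAt u (u' θ) θ) (h0 : ∀ θ, u 0 ≤ u θ) (h2 : HasDerivAt u' c 0) :
    u' 0 = 0 ∧ 0 ≤ c := by
  have hd : deriv u = u' := by
    funext θ
    exact (h θ).deriv
  have hm : IsLocalMin u 0 := Eventually.of_forall h0
  have h00 : u' 0 = 0 := hm.hasDerivAt_eq_zero (h 0)
  refine ⟨h00, ?_⟩
  by_contra hc
  push Not at hc
  have h3 : IsLocalMax u 0 := by
    refine isLocalMax_of_deriv_deriv_neg ?_ ?_ (h 0).continuousAt
    · rw [hd, h2.deriv]
      exact hc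
    · rw [hd]
      exact h00
  have h4 : u =ᶠ[𝓝 0] fun _ => u 0 := by
    filter_upwards [h3] with θ hθ
    exact le_antisymm hθ (h0 θ)
  have h5 : deriv u =ᶠ[𝓝 0] deriv (fun _ => u 0) := h4.deriv
  have h6 := h5.deriv_eq
  rw [hd, h2.deriv] at h6
  have h7 : deriv (fun _ : ℝ => u 0) = fun _ => 0 := by
    funext θ
    exact deriv_const θ (u 0)
  rw [h7] at h6
  rw [deriv_const] at h6
  linarith

theorem TE_min {ε : ℝ} (hε : 0 < ε) {g : S2 → ℝ} (h : Continuous g) :
    ∃ n : S2, (∀ k, TE ε g (fun _ => 0) n k = 0) ∧ av g ≤ PE ε g n := by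
  have hsm := LE_smooth hε h
  have hne : (univ : Set S2).Nonempty := ⟨⟨EuclideanSpace.single 0 1, by simp⟩, mem_univ _⟩
  obtain ⟨n, -, hn⟩ := isCompact_univ.exists_isMinOn hne
    (f := fun m : S2 => LE ε g m) (hsm.continuous.comp continuous_subtype_val).continuousOn
  have hn' : ∀ m : S2, LE ε g n ≤ LE ε g m := fun m => hn (mem_univ m)
  have e1 : HR (fun m : S2 => LE ε g m) (fun j m => rl j (LE ε g) m) :=
    hr_val fun m => hsm.differentiable (by simp) _
  have e2 : ∀ i : Fin 3, HR (fun m : S2 => rl i (LE ε g) m) (fun j m => rl j (fun y => rl i (LE ε g) y) m) := fun i =>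
    hr_val fun m => (k8_rlsm hsm i).differentiable (by simp) _
  have key : ∀ j : Fin 3, rl j (LE ε g) n = 0 ∧ 0 ≤ rl j (fun y => rl j (LE ε g) y) n := by
    intro j
    have h1 := k8_sec (u := fun θ => LE ε g (rt j θ n)) (u' := fun θ => rl j (LE ε g) (rt j θ n))
      (c := rl j (fun y => rl j (LE ε g) y) n) (fun θ => hr_at e1 j n θ) (fun θ => ?_) (e2 j j n)
    · rw [rt_zero] at h1
      exact h1
    · show LE ε g (rt j 0 n) ≤ _
      rw [rt_zero]
      exact hn' _
  have e3 : ∀ j : Fin 3, rl j (fun y => TE ε (fun _ => 0) g y j) n = rl j (fun y => rl j (LE ε g) y) n := by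
    intro j
    have a1 : HR (fun m : S2 => TE ε (fun _ => 0) g m j) (fun i m => rl i (fun y => TE ε (fun _ => 0) g y j) m) :=
      hr_val (G := fun y => TE ε (fun _ => 0) g y j) fun m => (TE_smooth hε continuous_const h j).differentiable (by simp) _
    have a2 := e2 j
    have a3 : (fun m : S2 => rl j (LE ε g) m) = fun m : S2 => TE ε (fun _ => 0) g m j := by
      funext m
      exact LE_rl hε h m j
    rw [a3] at a2
    exact hr_uni a1 a2 j n
  refine ⟨n, fun k => ?_, ?_⟩
  · rw [LE_grad hε h]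
    have h1 : ∀ j, TE ε (fun _ => 0) g n j = 0 := fun j => by
      rw [← LE_rl hε h n j]
      exact (key j).1
    unfold crs
    rw [h1, h1]
    ring
  · have h1 := TE_curl hε (g1 := fun _ => 0) continuous_const h n
    have h2 : 0 ≤ ∑ j, rl j (fun y => TE ε (fun _ => 0) g y j) n := Finset.sum_nonneg fun j _ => by
      rw [e3]
      exact (key j).2
    linarith

end NullS
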