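import Pool.Agent.Lib.H17S.K.K4

set_option autoImplicit false

/-!
Chunk K9 (M). Hoelder bound `|TE g (n) - TE g (n')| <= 100 M |n - n'|^(1/2)`, uniformly in `ε`. (Use `vnrm_int` of K0.)
Proof. `n`, `m` on the sphere, `x = m - n`, `D = kd ε n m = ε + |x|²/2`, so `|x| <= sqrt (2 D)`.
First the pointwise bound. Write the integrand of `TE` as the vector `K (n, m) = g1 ka + g2 kb`; `ka` and `kb` are orthogonal and have the same length `|n x m|/D <= |x|/D <= sqrt 2 * D^(-1/2)`, so `|K| <= M sqrt 2 D^(-1/2)` if `g1² + g2² <= M²`.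
Second part. `x = m - n`, `y = m - n'`, `D, D'` the values of `kd`, `a = sqrt (2 D) >= |x|`, `b = sqrt (2 D') >= |y|`, `d = |n - n'| = |x - y|`, `N(x) = x/(ε + |x|²/2)`.
(1) `|N(x) - N(y)| = |ε (x - y) + (x |y|² - y |x|²)/2|/(D D') <= d (ε + |x||y|/2)/(D D') <= d/sqrt (D D') = 2 d/(a b)` (`| x |y|² - y |x|² | = |x||y||x - y|`; `ε + |x||y|/2 <= sqrt (D D')` by Cauchy-Schwarz).
(2) `ka ε n m = N(x) + (1 - ε/D) n` on the sphere (`m - (n . m) n = x + (1 - n . m) n`, `1 - n . m = |x|²/2 = D - ε`), and `|(1 - ε/D) n - (1 - ε/D') n'| <= d + |ε/D - ε/D'|`, `|ε/D - ε/D'| = ε | |x|² - |y|² |/(2 D D') <= ε d (|x| + |y|)/(2 D D')`;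
 if, say, `b <= a`: `|x| + |y| <= 2 a`, `2 D D' = a² b²/2`, `ε <= D' = b²/2`, so it is `<= (b²/2) d 2 a * 2/(a² b²) = 2 d/a`; in general `<= 2 d/max a b <= 6 d/(a b)` as `a, b <= sqrt 6 < 3` (`ε <= 1`); also `d <= 6 d/(a b)`. So `|ka - ka'| <= 14 d/(a b)`.
 `kb ε n m = n x ka ε n m`, so `|kb - kb'| <= |ka - ka'| + d |ka'| <= 14 d/(a b) + 2 d/b <= 20 d/(a b)`.
 So `|K (n, m) - K (n', m)| <= |g1||ka - ka'| + |g2||kb - kb'| <= 34 M d/(a b)`.
(3) Also `|K (n, m) - K (n', m)| <= |K| + |K'| <= 2 M/a + 2 M/b = 2 M (a + b)/(a b)`. So `|K - K'|² <= 68 M² d (a + b)/(a b)²` and `|K - K'| <= 9 M sqrt d (sqrt a + sqrt b)/(a b) <= 9 M sqrt d (a^(-1/2) b^(-1) + a^(-1) b^(-1/2)) <= 18 M sqrt d (a^(-3/2) + b^(-3/2))`.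
(4) `∫ a^(-3/2) dm = 2π ∫_{-1}^1 (2 (1 + ε - t))^(-3/4) dt <= 2π 2^(-3/4) 4 3^(1/4) <= 8 π`. Total: `(1/4π) 18 M sqrt d 16 π = 72 M sqrt d`. (Any constant is fine; the statement below has `100`.)
Simplification allowed: any other proof, and any bigger constant instead of `100` if you tell helper28 (nothing depends on the value).
-/

open MeasureTheory Filter Topology Set
open scoped ContDiff

namespace NullS

open NullPen (E3 S2 sm)
open NullU (rl crs vnrm)
open NullQ (rt HR)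

theorem k9_norm (v : Fin 3 → ℝ) : vnrm v = ‖(WithLp.toLp 2 v : E3)‖ := by
  unfold vnrm
  rw [EuclideanSpace.norm_eq]
  simp [Real.norm_eq_abs, sq_abs]

theorem k9_add (u v : Fin 3 → ℝ) : vnrm (fun k => u k + v k) ≤ vnrm u + vnrm v := by
  rw [k9_norm, k9_norm, k9_norm]
  exact norm_add_le (WithLp.toLp 2 u : E3) (WithLp.toLp 2 v)

theorem k9_smul (c : ℝ) (v : Fin 3 → ℝ) : vnrm (fun k => c * v k) = |c| * vnrm v := by
  rw [k9_norm, k9_norm, ← Real.norm_eq_abs, ← norm_smul]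
  rfl

theorem k9_sub (u v : Fin 3 → ℝ) : vnrm (fun k => u k - v k) ≤ vnrm u + vnrm v := by
  rw [k9_norm, k9_norm, k9_norm]
  exact norm_sub_le (WithLp.toLp 2 u : E3) (WithLp.toLp 2 v)

theorem k9_le {v : Fin 3 → ℝ} {c : ℝ} (hc : 0 ≤ c) (h : ∑ i, v i ^ 2 ≤ c ^ 2) : vnrm v ≤ c := by
  unfold vnrm
  exact Real.sqrt_le_iff.2 ⟨hc, h⟩

theorem k9_crs (u v : Fin 3 → ℝ) : vnrm (crs u v) ≤ vnrm u * vnrm v := by
  refine k9_le (mul_nonneg (vnrm_nonneg _) (vnrm_nonneg _)) ?_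
  rw [mul_pow, vnrm_sq, vnrm_sq]
  have e1 : (0 : Fin 3) + 1 = 1 := rfl
  have e2 : (0 : Fin 3) + 2 = 2 := rfl
  have e3 : (1 : Fin 3) + 1 = 2 := rfl
  have e4 : (1 : Fin 3) + 2 = 0 := rfl
  have e5 : (2 : Fin 3) + 1 = 0 := rfl
  have e6 : (2 : Fin 3) + 2 = 1 := rfl
  simp only [Fin.sum_univ_three, crs, e1, e2, e3, e4, e5, e6]
  nlinarith [sq_nonneg (u 0 * v 0 + u 1 * v 1 + u 2 * v 2)]

/-- `A B` -/
theorem k9_N {x y : Fin 3 → ℝ} {ε D D' : ℝ} (hε : 0 < ε) (hD : D = ε + (∑ i, x i ^ 2) / 2)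
    (hD' : D' = ε + (∑ i, y i ^ 2) / 2) :
    vnrm (fun k => x k / D - y k / D') ≤ vnrm (fun k => x k - y k) / (Real.sqrt D * Real.sqrt D') := by
  have hX : 0 ≤ ∑ i, x i ^ 2 := Finset.sum_nonneg fun i _ => sq_nonneg _
  have hY : 0 ≤ ∑ i, y i ^ 2 := Finset.sum_nonneg fun i _ => sq_nonneg _
  have hD0 : 0 < D := by rw [hD]; linarith
  have hD0' : 0 < D' := by rw [hD']; linarith
  refine k9_le (div_nonneg (vnrm_nonneg _) (by positivity)) ?_
  rw [div_pow, mul_pow, Real.sq_sqrt hD0.le, Real.sq_sqrt hD0'.le, vnrm_sq,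
    le_div_iff₀ (by positivity)]
  have h1 : (∑ i, (x i / D - y i / D') ^ 2) * (D * D') =
      (∑ i, (x i * D' - y i * D) ^ 2) / (D * D') := by
    simp only [Fin.sum_univ_three]
    field_simp
  rw [h1, div_le_iff₀ (by positivity)]
  have h2 : (∑ i, (x i - y i) ^ 2) * (D * D') - ∑ i, (x i * D' - y i * D) ^ 2 =
      ε * ((∑ i, x i ^ 2) - ∑ i, y i ^ 2) ^ 2 / 2 := by
    rw [hD, hD']
    simp only [Fin.sum_univ_three]
    ring
  have h3 : 0 ≤ ε * ((∑ i, x i ^ 2) - ∑ i, y i ^ 2) ^ 2 / 2 := by positivity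
  linarith

theorem k9_e {x y : Fin 3 → ℝ} {ε D D' : ℝ} (hε : 0 < ε) (hε1 : ε ≤ 1)
    (hD : D = ε + (∑ i, x i ^ 2) / 2) (hD' : D' = ε + (∑ i, y i ^ 2) / 2) :
    |ε / D' - ε / D| ≤ 2 * (vnrm (fun k => x k - y k) / (Real.sqrt D * Real.sqrt D')) := by
  have hX : 0 ≤ ∑ i, x i ^ 2 := Finset.sum_nonneg fun i _ => sq_nonneg _
  have hY : 0 ≤ ∑ i, y i ^ 2 := Finset.sum_nonneg fun i _ => sq_nonneg _
  have hD0 : 0 < D := by rw [hD]; linarith
  have hD0' : 0 < D' := by rw [hD']; linarith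
  have hDε : ε ≤ D := by rw [hD]; linarith
  have hDε' : ε ≤ D' := by rw [hD']; linarith
  have hd := vnrm_nonneg (fun k => x k - y k)
  refine abs_le_of_sq_le_sq ?_ (by positivity)
  rw [mul_pow, div_pow, mul_pow, Real.sq_sqrt hD0.le, Real.sq_sqrt hD0'.le, vnrm_sq]
  have h1 : ε / D' - ε / D = ε * (((∑ i, x i ^ 2) - ∑ i, y i ^ 2) / 2) / (D * D') := by
    have h2 : D - D' = ((∑ i, x i ^ 2) - ∑ i, y i ^ 2) / 2 := by rw [hD, hD']; ring
    rw [← h2]
    field_simp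
  rw [h1, div_pow, div_le_iff₀ (by positivity)]
  have h3 : ((∑ i, x i ^ 2) - ∑ i, y i ^ 2) ^ 2 ≤
      (∑ i, (x i - y i) ^ 2) * (2 * ((∑ i, x i ^ 2) + ∑ i, y i ^ 2)) := by
    have h4 := Finset.sum_mul_sq_le_sq_mul_sq Finset.univ (fun i => x i - y i) (fun i => x i + y i)
    have h5 : ∑ i, (x i - y i) * (x i + y i) = (∑ i, x i ^ 2) - ∑ i, y i ^ 2 := by
      rw [← Finset.sum_sub_distrib]
      exact Finset.sum_congr rfl fun i _ => by ring
    rw [h5] at h4
    refine h4.trans (mul_le_mul_of_nonneg_left ?_ (Finset.sum_nonneg fun i _ => sq_nonneg _))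
    rw [← Finset.sum_add_distrib, Finset.mul_sum]
    exact Finset.sum_le_sum fun i _ => by nlinarith [sq_nonneg (x i - y i)]
  set d2 := ∑ i, (x i - y i) ^ 2 with hd2
  have hd20 : 0 ≤ d2 := Finset.sum_nonneg fun i _ => sq_nonneg _
  set X := ∑ i, x i ^ 2 with hXd
  set Y := ∑ i, y i ^ 2 with hYd
  have h6 : X ≤ 2 * D := by rw [hD]; linarith
  have h7 : Y ≤ 2 * D' := by rw [hD']; linarith
  have h8 : (X - Y) ^ 2 ≤ d2 * (4 * (D + D')) := by
    refine h3.trans (mul_le_mul_of_nonneg_left ?_ hd20)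
    linarith
  have h9 : ε ^ 2 * (D + D') ≤ 2 * (D * D') := by
    have h10 : ε * D ≤ D' * D := mul_le_mul_of_nonneg_right hDε' hD0.le
    have h11 : ε * D' ≤ D * D' := mul_le_mul_of_nonneg_right hDε hD0'.le
    have h12 : ε ^ 2 * (D + D') = ε * (ε * D + ε * D') := by ring
    rw [h12]
    have h13 : ε * (ε * D + ε * D') ≤ 1 * (ε * D + ε * D') :=
      mul_le_mul_of_nonneg_right hε1 (by positivity)
    linarith
  have h14 : (ε * ((X - Y) / 2)) ^ 2 ≤ d2 * (2 * (D * D')) := by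
    have h15 : (ε * ((X - Y) / 2)) ^ 2 = ε ^ 2 / 4 * (X - Y) ^ 2 := by ring
    rw [h15]
    calc ε ^ 2 / 4 * (X - Y) ^ 2 ≤ ε ^ 2 / 4 * (d2 * (4 * (D + D'))) :=
          mul_le_mul_of_nonneg_left h8 (by positivity)
      _ = d2 * (ε ^ 2 * (D + D')) := by ring
      _ ≤ d2 * (2 * (D * D')) := mul_le_mul_of_nonneg_left h9 hd20
  have h16 : 0 < D * D' := mul_pos hD0 hD0'
  have h17 : 2 ^ 2 * (d2 / (D * D')) * (D * D') ^ 2 = 4 * (d2 * (D * D')) := by
    field_simp
    ring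
  rw [h17]
  have h18 : 0 ≤ d2 * (D * D') := mul_nonneg hd20 h16.le
  linarith

/-- real inequality of the end -/
theorem k9_real {q M d A B : ℝ} (hq : 0 ≤ q) (hM : 0 ≤ M) (hd : 0 ≤ d) (hA : 0 < A) (hB : 0 < B)
    (h1 : q ≤ 10 * M * (d / (A * B))) (h2 : q ≤ 3 * M * (1 / A + 1 / B)) :
    q ≤ 6 * M * Real.sqrt d * (1 / (A * Real.sqrt A) + 1 / (B * Real.sqrt B)) := by
  set α := Real.sqrt A with hα
  set β := Real.sqrt B with hβ
  have hα0 : 0 < α := Real.sqrt_pos.2 hA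
  have hβ0 : 0 < β := Real.sqrt_pos.2 hB
  have hαα : α ^ 2 = A := Real.sq_sqrt hA.le
  have hββ : β ^ 2 = B := Real.sq_sqrt hB.le
  have h3 : (α + β) / (A * B) ≤ 1 / (A * α) + 1 / (B * β) := by
    rw [← hαα, ← hββ, div_add_div _ _ (by positivity) (by positivity),
      div_le_div_iff₀ (by positivity) (by positivity)]
    have h4 : 0 ≤ (α + β) * (α - β) ^ 2 := by positivity
    have h5 : 0 ≤ α ^ 2 * β ^ 2 := by positivity
    nlinarith [mul_nonneg h5 h4]
  have h6 : 0 ≤ (α + β) / (A * B) := by positivity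
  refine le_trans ?_ (mul_le_mul_of_nonneg_left h3 (by positivity))
  refine le_of_sq_le_sq ?_ (by positivity)
  rw [mul_pow, mul_pow, mul_pow, Real.sq_sqrt hd, div_pow]
  have h7 : q ^ 2 ≤ (10 * M * (d / (A * B))) * (3 * M * (1 / A + 1 / B)) := by
    rw [sq]
    exact mul_le_mul h1 h2 hq (hq.trans h1)
  refine h7.trans ?_
  have h8 : (10 * M * (d / (A * B))) * (3 * M * (1 / A + 1 / B)) =
      30 * M ^ 2 * d * ((A + B) / (A * B) ^ 2) := by
    field_simp
    ring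
  have h9 : 6 ^ 2 * M ^ 2 * d * ((α + β) ^ 2 / (A * B) ^ 2) =
      36 * M ^ 2 * d * ((α + β) ^ 2 / (A * B) ^ 2) := by ring
  rw [h8, h9]
  have h10 : (A + B) / (A * B) ^ 2 ≤ (α + β) ^ 2 / (A * B) ^ 2 := by
    apply div_le_div_of_nonneg_right _ (by positivity)
    nlinarith [mul_pos hα0 hβ0]
  have h11 : 0 ≤ (A + B) / (A * B) ^ 2 := by positivity
  have h12 : 0 ≤ M ^ 2 * d := by positivity
  calc 30 * M ^ 2 * d * ((A + B) / (A * B) ^ 2)
      = 30 * (M ^ 2 * d * ((A + B) / (A * B) ^ 2)) := by ring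
    _ ≤ 36 * (M ^ 2 * d * ((A + B) / (A * B) ^ 2)) := by
        have := mul_nonneg h12 h11
        linarith
    _ ≤ 36 * (M ^ 2 * d * ((α + β) ^ 2 / (A * B) ^ 2)) := by
        have := mul_le_mul_of_nonneg_left h10 h12
        linarith
    _ = _ := by ring

theorem k9_kd (ε : ℝ) (n m : S2) :
    kd ε n m = ε + (∑ i, ((m : E3) i - (n : E3) i) ^ 2) / 2 := by
  unfold kd
  congr 2
  exact Finset.sum_congr rfl fun i _ => by ring

theorem k9_ka (ε : ℝ) (n m : S2) (k : Fin 3) : ka ε n m k =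
    ((m : E3) k - (n : E3) k) / kd ε n m + (kd ε n m - ε) / kd ε n m * (n : E3) k := by
  have h1 : ∑ i, (n : E3) i * (m : E3) i = ε + 1 - kd ε n m := by rw [kd_S2]; ring
  unfold ka
  rw [h1]
  ring

theorem k9_ka_norm {ε : ℝ} (hε : 0 < ε) (n m : S2) :
    vnrm (fun k => ka ε n m k) ≤ vnrm (fun i => (m : E3) i - (n : E3) i) / kd ε n m := by
  have hD := kd_pos hε (n : E3) (m : E3)
  refine k9_le (div_nonneg (vnrm_nonneg _) hD.le) ?_
  rw [div_pow, vnrm_sq]
  have h1 := sq_S2 n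
  have h2 := sq_S2 m
  have h3 : (∑ k, ka ε n m k ^ 2) =
      (∑ k, ((m : E3) k - (∑ i, (n : E3) i * (m : E3) i) * (n : E3) k) ^ 2) / kd ε n m ^ 2 := by
    unfold ka
    rw [Finset.sum_div]
    exact Finset.sum_congr rfl fun k _ => by rw [div_pow]
  rw [h3]
  apply div_le_div_of_nonneg_right _ (by positivity)
  simp only [Fin.sum_univ_three]
  set a := (n : E3) 0
  set b := (n : E3) 1
  set c := (n : E3) 2
  set u := (m : E3) 0
  set v := (m : E3) 1
  set w := (m : E3) 2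
  have h4 : (u - (a * u + b * v + c * w) * a) ^ 2 + (v - (a * u + b * v + c * w) * b) ^ 2 +
      (w - (a * u + b * v + c * w) * c) ^ 2 = (u ^ 2 + v ^ 2 + w ^ 2) -
      2 * (a * u + b * v + c * w) ^ 2 + (a * u + b * v + c * w) ^ 2 * (a ^ 2 + b ^ 2 + c ^ 2) := by
    ring
  have h5 : (u - a) ^ 2 + (v - b) ^ 2 + (w - c) ^ 2 = (u ^ 2 + v ^ 2 + w ^ 2) +
      (a ^ 2 + b ^ 2 + c ^ 2) - 2 * (a * u + b * v + c * w) := by ring
  rw [h4, h5, h1, h2]
  nlinarith [sq_nonneg (a * u + b * v + c * w - 1)]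

theorem k9_kb (ε : ℝ) (n m : S2) (k : Fin 3) : kb ε n m k =
    crs (fun i => (n : E3) i) (fun i => ((m : E3) i - (n : E3) i) / kd ε n m) k := by
  unfold kb crs
  ring

theorem k9_sphere (n : S2) : vnrm (fun i => (n : E3) i) = 1 := by
  unfold vnrm
  rw [Fin.sum_univ_three, sq_S2 n, Real.sqrt_one]

theorem k9_dist (n n' m : S2) :
    vnrm (fun k => ((m : E3) k - (n : E3) k) - ((m : E3) k - (n' : E3) k)) = dist n n' := by
  rw [Subtype.dist_eq, dist_eq_norm, ← norm_neg, k9_norm]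
  congr 1
  ext k
  simp

theorem k9_kd_le {ε : ℝ} (hε1 : ε ≤ 1) (n m : S2) : kd ε n m ≤ 3 := by
  rw [kd_S2]
  have := (dot_mem n m).1
  linarith

/-- the pointwise bound -/
theorem k9_pt {ε : ℝ} (hε : 0 < ε) (hε1 : ε ≤ 1) {g h M : ℝ} (hM : g ^ 2 + h ^ 2 ≤ M ^ 2)
    (hM0 : 0 ≤ M) (n n' m : S2) :
    vnrm (fun k => (g * ka ε n m k + h * kb ε n m k) - (g * ka ε n' m k + h * kb ε n' m k)) ≤
      6 * M * Real.sqrt (dist n n') *
        (1 / (Real.sqrt (kd ε n m) * Real.sqrt (Real.sqrt (kd ε n m))) +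
          1 / (Real.sqrt (kd ε n' m) * Real.sqrt (Real.sqrt (kd ε n' m)))) := by
  have hD := kd_pos hε (n : E3) (m : E3)
  have hD' := kd_pos hε (n' : E3) (m : E3)
  have hA := Real.sqrt_pos.2 hD
  have hB := Real.sqrt_pos.2 hD'
  have hDe := k9_kd ε n m
  have hDe' := k9_kd ε n' m
  have hD3 := k9_kd_le hε1 n m
  have hD3' := k9_kd_le hε1 n' m
  have hg : |g| ≤ M := abs_le_of_sq_le_sq (by nlinarith [sq_nonneg h]) hM0
  have hh : |h| ≤ M := abs_le_of_sq_le_sq (by nlinarith [sq_nonneg g]) hM0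
  have hd0 : 0 ≤ dist n n' := dist_nonneg
  have hN := k9_N hε hDe hDe'
  have hE := k9_e hε hε1 hDe hDe'
  rw [k9_dist] at hN hE
  have hAA : Real.sqrt (kd ε n m) ^ 2 = kd ε n m := Real.sq_sqrt hD.le
  have hBB : Real.sqrt (kd ε n' m) ^ 2 = kd ε n' m := Real.sq_sqrt hD'.le
  have hAB : Real.sqrt (kd ε n m) * Real.sqrt (kd ε n' m) ≤ 3 := by
    nlinarith [sq_nonneg (Real.sqrt (kd ε n m) - Real.sqrt (kd ε n' m))]
  have hABp := mul_pos hA hB
  have hd3 : dist n n' ≤ 3 * (dist n n' / (Real.sqrt (kd ε n m) * Real.sqrt (kd ε n' m))) := by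
    rw [← mul_div_assoc, le_div_iff₀ hABp]
    nlinarith
  -- norms of the differences `m - n`
  have hx : ∀ z : S2, vnrm (fun i => (m : E3) i - (z : E3) i) / kd ε z m ≤
      3 / 2 * (1 / Real.sqrt (kd ε z m)) := by
    intro z
    have hz := kd_pos hε (z : E3) (m : E3)
    have hzs := Real.sqrt_pos.2 hz
    have hzz : Real.sqrt (kd ε z m) * Real.sqrt (kd ε z m) = kd ε z m :=
      Real.mul_self_sqrt hz.le
    rw [mul_one_div, div_le_div_iff₀ hz hzs]
    have h1 : vnrm (fun i => (m : E3) i - (z : E3) i) ≤ 3 / 2 * Real.sqrt (kd ε z m) := by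
      refine k9_le (by positivity) ?_
      rw [mul_pow, Real.sq_sqrt hz.le]
      have h2 := k9_kd ε z m
      nlinarith
    calc vnrm (fun i => (m : E3) i - (z : E3) i) * Real.sqrt (kd ε z m)
        ≤ 3 / 2 * Real.sqrt (kd ε z m) * Real.sqrt (kd ε z m) :=
          mul_le_mul_of_nonneg_right h1 hzs.le
      _ = 3 / 2 * kd ε z m := by rw [mul_assoc, hzz]
  -- the kernels
  have hka : ∀ z : S2, vnrm (fun k => ka ε z m k) ≤ 3 / 2 * (1 / Real.sqrt (kd ε z m)) :=
    fun z => (k9_ka_norm hε z m).trans (hx z)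
  have hkb : ∀ z : S2, vnrm (fun k => kb ε z m k) ≤ 3 / 2 * (1 / Real.sqrt (kd ε z m)) := by
    intro z
    have h1 : (fun k => kb ε z m k) =
        crs (fun i => (z : E3) i) (fun i => ((m : E3) i - (z : E3) i) / kd ε z m) := by
      funext k
      exact k9_kb ε z m k
    rw [h1]
    refine (k9_crs _ _).trans ?_
    rw [k9_sphere, one_mul]
    have h2 : (fun i => ((m : E3) i - (z : E3) i) / kd ε z m) =
        fun i => (kd ε z m)⁻¹ * ((m : E3) i - (z : E3) i) := by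
      funext i
      rw [div_eq_inv_mul]
    have hz := kd_pos hε (z : E3) (m : E3)
    rw [h2, k9_smul, abs_of_pos (inv_pos.2 hz), ← div_eq_inv_mul]
    exact hx z
  have hdka : vnrm (fun k => ka ε n m k - ka ε n' m k) ≤
      6 * (dist n n' / (Real.sqrt (kd ε n m) * Real.sqrt (kd ε n' m))) := by
    have h1 : (fun k => ka ε n m k - ka ε n' m k) = fun k =>
        (((m : E3) k - (n : E3) k) / kd ε n m - ((m : E3) k - (n' : E3) k) / kd ε n' m) +
        ((-((kd ε n m - ε) / kd ε n m)) * (((m : E3) k - (n : E3) k) - ((m : E3) k - (n' : E3) k)) +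
          (ε / kd ε n' m - ε / kd ε n m) * (n' : E3) k) := by
      funext k
      rw [k9_ka, k9_ka]
      field_simp
      ring
    rw [h1]
    refine (k9_add _ _).trans ?_
    refine (add_le_add hN (k9_add _ _)).trans ?_
    rw [k9_smul, k9_smul, k9_dist, k9_sphere, mul_one, abs_neg]
    have h2 : |(kd ε n m - ε) / kd ε n m| ≤ 1 := by
      rw [abs_of_nonneg (div_nonneg (by linarith [kd_ge ε (n : E3) (m : E3)]) hD.le),
        div_le_one hD]
      linarith
    have h3 : |(kd ε n m - ε) / kd ε n m| * dist n n' ≤ 1 * dist n n' :=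
      mul_le_mul_of_nonneg_right h2 hd0
    linarith
  have hdkb : vnrm (fun k => kb ε n m k - kb ε n' m k) ≤
      4 * (dist n n' / (Real.sqrt (kd ε n m) * Real.sqrt (kd ε n' m))) := by
    have h1 : (fun k => kb ε n m k - kb ε n' m k) = fun k =>
        crs (fun i => (n : E3) i) (fun i => ((m : E3) i - (n : E3) i) / kd ε n m -
          ((m : E3) i - (n' : E3) i) / kd ε n' m) k +
        crs (fun i => (-1) * (((m : E3) i - (n : E3) i) - ((m : E3) i - (n' : E3) i)))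
          (fun i => (kd ε n' m)⁻¹ * ((m : E3) i - (n' : E3) i)) k := by
      funext k
      unfold kb crs
      field_simp
      ring
    rw [h1]
    refine (k9_add _ _).trans ?_
    refine (add_le_add (k9_crs _ _) (k9_crs _ _)).trans ?_
    rw [k9_sphere, one_mul, k9_smul, k9_smul, k9_dist, abs_neg, abs_one, one_mul,
      abs_of_pos (inv_pos.2 hD'), ← div_eq_inv_mul]
    have h2 := hx n'
    have h3 : 3 / 2 * (1 / Real.sqrt (kd ε n' m)) ≤
        3 * (1 / (Real.sqrt (kd ε n m) * Real.sqrt (kd ε n' m))) := by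
      rw [mul_one_div, mul_one_div, div_le_div_iff₀ hB hABp]
      have h4 : Real.sqrt (kd ε n m) ≤ 2 := by
        rw [Real.sqrt_le_left (by norm_num)]
        linarith
      nlinarith
    have h5 : dist n n' * (vnrm (fun i => (m : E3) i - (n' : E3) i) / kd ε n' m) ≤
        dist n n' * (3 * (1 / (Real.sqrt (kd ε n m) * Real.sqrt (kd ε n' m)))) :=
      mul_le_mul_of_nonneg_left (h2.trans h3) hd0
    have h6 : dist n n' * (3 * (1 / (Real.sqrt (kd ε n m) * Real.sqrt (kd ε n' m)))) =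
        3 * (dist n n' / (Real.sqrt (kd ε n m) * Real.sqrt (kd ε n' m))) := by ring
    linarith
  refine k9_real (vnrm_nonneg _) hM0 hd0 hA hB ?_ ?_
  · have h1 : (fun k => (g * ka ε n m k + h * kb ε n m k) - (g * ka ε n' m k + h * kb ε n' m k)) =
        fun k => g * (ka ε n m k - ka ε n' m k) + h * (kb ε n m k - kb ε n' m k) := by
      funext k
      ring
    rw [h1]
    refine (k9_add _ _).trans ?_
    rw [k9_smul, k9_smul]
    have h2 := mul_le_mul hg hdka (vnrm_nonneg _) hM0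
    have h3 := mul_le_mul hh hdkb (vnrm_nonneg _) hM0
    nlinarith
  · refine (k9_sub _ _).trans ?_
    have h4 : ∀ z : S2, vnrm (fun k => g * ka ε z m k + h * kb ε z m k) ≤
        3 * M * (1 / Real.sqrt (kd ε z m)) := by
      intro z
      refine (k9_add _ _).trans ?_
      rw [k9_smul, k9_smul]
      have h2 := mul_le_mul hg (hka z) (vnrm_nonneg _) hM0
      have h3 := mul_le_mul hh (hkb z) (vnrm_nonneg _) hM0
      nlinarith
    have h5 := h4 n
    have h6 := h4 n'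
    linarith

/-- antiderivative -/
theorem k9_int {ε : ℝ} (hε : 0 < ε) (hε1 : ε ≤ 1) (n : S2) :
    ∫ m : S2, 1 / (Real.sqrt (kd ε n m) * Real.sqrt (Real.sqrt (kd ε n m))) ∂sm ≤
      12 * Real.pi := by
  have h1 : ∀ m : S2, 1 / (Real.sqrt (kd ε n m) * Real.sqrt (Real.sqrt (kd ε n m))) =
      (fun t : ℝ => 1 / (Real.sqrt (ε + 1 - t) * Real.sqrt (Real.sqrt (ε + 1 - t))))
        (∑ i, (n : E3) i * (m : E3) i) := by
    intro m
    rw [kd_S2]
  have hpos : ∀ t ∈ Icc (-1 : ℝ) 1, 0 < ε + 1 - t := fun t ht => by linarith [ht.2]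
  have hcont : ContinuousOn
      (fun t : ℝ => 1 / (Real.sqrt (ε + 1 - t) * Real.sqrt (Real.sqrt (ε + 1 - t))))
      (Icc (-1) 1) := by
    apply ContinuousOn.div continuousOn_const
    · exact ((continuous_const.sub continuous_id).sqrt.mul
        (continuous_const.sub continuous_id).sqrt.sqrt).continuousOn
    · intro t ht
      have := hpos t ht
      positivity
  rw [integral_congr_ae (Eventually.of_forall h1), hat_box hcont]
  have hder : ∀ t ∈ uIcc (-1 : ℝ) 1, HasDerivAt (fun t => -4 * Real.sqrt (Real.sqrt (ε + 1 - t)))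
      (1 / (Real.sqrt (ε + 1 - t) * Real.sqrt (Real.sqrt (ε + 1 - t)))) t := by
    intro t ht
    rw [uIcc_of_le (by norm_num)] at ht
    have h0 := hpos t ht
    have h2 : HasDerivAt (fun t : ℝ => ε + 1 - t) (-1) t := by
      simpa using (hasDerivAt_id t).const_sub (ε + 1)
    have h3 := ((h2.sqrt h0.ne').sqrt (Real.sqrt_pos.2 h0).ne').const_mul (-4)
    have h4 := Real.sqrt_pos.2 h0
    have h5 := Real.sqrt_pos.2 h4
    have h9 : -4 * (-1 / (2 * Real.sqrt (ε + 1 - t)) / (2 * Real.sqrt (Real.sqrt (ε + 1 - t)))) =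
        1 / (Real.sqrt (ε + 1 - t) * Real.sqrt (Real.sqrt (ε + 1 - t))) := by
      field_simp
      norm_num
    rw [← h9]
    exact h3
  rw [intervalIntegral.integral_eq_sub_of_hasDerivAt hder
    (hcont.intervalIntegrable_of_Icc (by norm_num))]
  have h6 : Real.sqrt (Real.sqrt (ε + 1 - -1)) ≤ 3 / 2 := by
    rw [Real.sqrt_le_left (by norm_num), Real.sqrt_le_left (by norm_num)]
    norm_num
    linarith
  have h7 := Real.sqrt_nonneg (Real.sqrt (ε + 1 - 1))
  have h8 := Real.pi_pos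
  nlinarith

theorem TE_hold {ε : ℝ} (hε : 0 < ε) (hε1 : ε ≤ 1) {g1 g2 : S2 → ℝ} (h1 : Continuous g1) (h2 : Continuous g2) {M : ℝ}
    (hM : ∀ m, g1 m ^ 2 + g2 m ^ 2 ≤ M ^ 2) (hM0 : 0 ≤ M) (n n' : S2) :
    vnrm (fun k => TE ε g1 g2 n k - TE ε g1 g2 n' k) ≤ 100 * M * Real.sqrt (dist n n') := by
  have hco : ∀ k : Fin 3, Continuous fun m : S2 => (m : E3) k := fun k =>
    (co_smooth k).continuous.comp continuous_subtype_val
  have hkdc : ∀ z : S2, Continuous fun m : S2 => kd ε z m := by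
    intro z
    unfold kd
    exact continuous_const.add ((continuous_finsetSum _ fun i _ =>
      (continuous_const.sub (hco i)).pow 2).div_const 2)
  have hkac : ∀ (z : S2) (k : Fin 3), Continuous fun m : S2 => ka ε z m k := by
    intro z k
    unfold ka
    refine Continuous.div ?_ (hkdc z) fun m => (kd_pos hε _ _).ne'
    exact (hco k).sub ((continuous_finsetSum _ fun i _ =>
      continuous_const.mul (hco i)).mul continuous_const)
  have hkbc : ∀ (z : S2) (k : Fin 3), Continuous fun m : S2 => kb ε z m k := by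
    intro z k
    unfold kb
    refine Continuous.div ?_ (hkdc z) fun m => (kd_pos hε _ _).ne'
    unfold crs
    exact (continuous_const.mul (hco _)).sub (continuous_const.mul (hco _))
  have hKc : ∀ (z : S2) (k : Fin 3),
      Continuous fun m : S2 => g1 m * ka ε z m k + g2 m * kb ε z m k := fun z k =>
    (h1.mul (hkac z k)).add (h2.mul (hkbc z k))
  have hsc : ∀ z : S2, Continuous fun m : S2 =>
      1 / (Real.sqrt (kd ε z m) * Real.sqrt (Real.sqrt (kd ε z m))) := by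
    intro z
    refine Continuous.div continuous_const ((hkdc z).sqrt.mul (hkdc z).sqrt.sqrt) fun m => ?_
    have := kd_pos hε (z : E3) (m : E3)
    positivity
  have hTE : (fun k => TE ε g1 g2 n k - TE ε g1 g2 n' k) = fun k => (-(1 / (4 * Real.pi))) *
      ∫ m : S2, ((g1 m * ka ε n m k + g2 m * kb ε n m k) -
        (g1 m * ka ε n' m k + g2 m * kb ε n' m k)) ∂sm := by
    funext k
    unfold TE
    rw [integral_sub (int_S2 (hKc n k)) (int_S2 (hKc n' k))]
    ring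
  rw [hTE, k9_smul, abs_neg, abs_of_pos (by positivity)]
  have hG : Continuous fun m : S2 => 6 * M * Real.sqrt (dist n n') *
      (1 / (Real.sqrt (kd ε n m) * Real.sqrt (Real.sqrt (kd ε n m))) +
        1 / (Real.sqrt (kd ε n' m) * Real.sqrt (Real.sqrt (kd ε n' m)))) :=
    continuous_const.mul ((hsc n).add (hsc n'))
  have hI := vnrm_int (F := fun m k => (g1 m * ka ε n m k + g2 m * kb ε n m k) -
        (g1 m * ka ε n' m k + g2 m * kb ε n' m k)) (fun k => (hKc n k).sub (hKc n' k)) hG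
    (fun m => k9_pt hε hε1 (hM m) hM0 n n' m)
  rw [integral_const_mul, integral_add (int_S2 (hsc n)) (int_S2 (hsc n'))] at hI
  have hi1 := k9_int hε hε1 n
  have hi2 := k9_int hε hε1 n'
  have hc : 0 ≤ 6 * M * Real.sqrt (dist n n') := by positivity
  have hI2 := hI.trans (mul_le_mul_of_nonneg_left (add_le_add hi1 hi2) hc)
  have hpi := Real.pi_pos
  have h10 : 1 / (4 * Real.pi) * (6 * M * Real.sqrt (dist n n') * (12 * Real.pi + 12 * Real.pi)) =
      36 * M * Real.sqrt (dist n n') := by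
    field_simp
    ring
  refine (mul_le_mul_of_nonneg_left hI2 (by positivity)).trans ?_
  rw [h10]
  have h11 : 0 ≤ M * Real.sqrt (dist n n') := by positivity
  nlinarith

end NullS
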